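import Mathlib
import Pool.Agent.H60.Q1.Corn.Sym
import Pool.Agent.H60.Q1.Tie

set_option autoImplicit false
open Finset

/-!
# Convex corner with a mark, ties on the excluded wall: deterministic part

The tie wall is `v.1 + v.2 = z.1 + z.2`, the free side is perpendicular. An untied crossing cluster either
has no vertex in the first row above the wall or comes near the wall in some window of the wall.
-/

namespace Pool.Agent.H23.TC

open Pool.Agent.H75.Perc Pool.Agent.H75.TwoArm Pool.Agent.H75.Four Pool.Agent.H49.Perc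
open Pool.Agent.H99.NC Pool.Agent.H60.Q1 Pool.Agent.H60.Q1.Corn
open Pool.Agent.H20.Q1 (BR_mono BR_ends BR_of_ends last_exit)

/-- labels of the quadrant: the tie wall is below, the free side is on the left (`f = 1`) or on the
right (`f = -1`) of the domain. -/
def dE (f ε : ℤ) (z l : ℤ × ℤ) : Prop :=
  2 * (z.1 + z.2) ≤ l.1 + l.2 ∧ 2 * (f * (z.2 - z.1) + ε) ≤ f * (l.2 - l.1)

/-- not on the tie wall -/
def PT (z v : ℤ × ℤ) : Prop := z.1 + z.2 < v.1 + v.2

/-- bulk labels -/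
noncomputable def a1 (f ε : ℤ) (z : ℤ × ℤ) (ρ R : ℤ) : Finset (ℤ × ℤ) :=
  (AG (dE f ε) z ρ R).filter fun l => 2 * (z.1 + z.2 + 1) ≤ l.1 + l.2

/-- the cluster has no vertex in the first row -/
def NE (f ε : ℤ) (z : ℤ × ℤ) (ρ R : ℤ) (ω : Finset (ℤ × ℤ)) : Prop :=
  ∃ u v, Near z ρ u ∧ Far z R v ∧ Co (ω ∩ a1 f ε z ρ R) u v ∧
    ∀ y, Co (ω ∩ a1 f ε z ρ R) u y → z.1 + z.2 + 1 < y.1 + y.2

variable {f ε : ℤ} {z : ℤ × ℤ} {ρ R m a0 R' : ℤ} {ω : Finset (ℤ × ℤ)}

lemma mem_a1 {l : ℤ × ℤ} : l ∈ a1 f ε z ρ R ↔ l ∈ AG (dE f ε) z ρ R ∧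
    2 * (z.1 + z.2 + 1) ≤ l.1 + l.2 := by
  unfold a1
  rw [mem_filter]

/-- every vertex of a nontrivial cluster is the end of a label -/
lemma exists_label {η : Finset (ℤ × ℤ)} {u v y : ℤ × ℤ} (h : Co η u y) (hv : Co η u v)
    (hne : u ≠ v) : ∃ p, IsUnit4 (p - y) ∧ y + p ∈ η := by
  by_cases huy : u = y
  · rw [← huy]
    rcases Relation.ReflTransGen.cases_head hv with h1 | ⟨p, h1, -⟩
    · exact absurd h1 hne
    · exact ⟨p, h1.1, h1.2⟩
  · rcases Relation.ReflTransGen.cases_tail h with h1 | ⟨p, -, h1⟩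
    · exact absurd h1.symm huy
    · refine ⟨p, unit_symm h1.1, ?_⟩
      rw [add_comm]
      exact h1.2

theorem tie_split (hf : f = 1 ∨ f = -1) (hε : ε = 0 ∨ ε = 1) (ha : 2 ≤ a0) (hm : a0 < m)
    (hρ : 4 * m ≤ ρ) (hR' : 3 * ρ ≤ R') (hR : 2 * R' ≤ R) (h : UG PT (dE f ε) z ρ R ω) :
    NE f ε z (2 * ρ) R' ω ∨
      ∃ i ∈ Icc (-(R' / a0 + 1)) (R' / a0 + 1), X3 1 (wp 1 z (i * a0)) a0 m ω := by
  obtain ⟨u, v, hu, hv, huv, hcu⟩ := h
  set a := AG (dE f ε) z ρ R with hadef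
  have hu0 := hu
  have hv0 := hv
  unfold Near at hu0
  unfold Far at hv0
  rw [abs_le, abs_le] at hu0
  rw [le_abs, le_abs] at hv0
  obtain ⟨v', hv', h2⟩ := open_exit (o := z) (M := R') huv (by rw [abs_lt, abs_lt]; omega)
    (by rw [le_abs, le_abs]; omega)
  have hv'0 := hv'
  rw [le_abs, le_abs] at hv'0
  obtain ⟨u', hu', h3⟩ := last_exit (w := z) (c := 2 * ρ) h2 (by rw [inR_iff]; omega)
    (by rw [inR_iff]; omega)
  set b := AG (dE f ε) z (2 * ρ) R' with hbdef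
  have hba : b ⊆ a := AG_sub (by omega) (by omega)
  have hsub : (ω ∩ a ∩ Bx (z.1 - R') (z.1 + R') (z.2 - R') (z.2 + R')) \ BR z (2 * ρ) ⊆ ω ∩ b := by
    intro l hl
    obtain ⟨g1, g2⟩ := mem_sdiff.1 hl
    obtain ⟨g3, g4⟩ := mem_inter.1 g1
    obtain ⟨g5, g6⟩ := mem_inter.1 g3
    exact mem_inter.2 ⟨g5, mem_AG.2 ⟨⟨g4, g2⟩, (mem_AG.1 g6).2⟩⟩
  have c3 : Co (ω ∩ b) u' v' := h3.mono hsub
  have cu : Co (ω ∩ a) u u' := (h2.mono inter_subset_left).trans
    (h3.mono (sdiff_subset.trans inter_subset_left)).symm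
  have hcb : ∀ y, Co (ω ∩ b) u' y → PT z y := fun y hy =>
    hcu y (cu.trans (hy.mono (inter_subset_inter_left hba)))
  have hu'0 := hu'
  rw [inR_iff] at hu'0
  have hne : u' ≠ v' := by
    rintro rfl
    omega
  by_cases hA : ∀ y, Co (ω ∩ b) u' y → z.1 + z.2 + 1 < y.1 + y.2
  · left
    have hsub2 : ω ∩ a1 f ε z (2 * ρ) R' ⊆ ω ∩ b := inter_subset_inter_left (filter_subset _ _)
    have key : ∀ y, Co (ω ∩ b) u' y → Co (ω ∩ a1 f ε z (2 * ρ) R') u' y := by
      intro y hy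
      induction hy with
      | refl => exact Co.refl _ _
      | @tail p r hp hpr ih =>
        obtain ⟨g1, g2⟩ := mem_inter.1 hpr.2
        have g3 := hA p hp
        have g4 := hA r (hp.tail hpr)
        refine ih.tail ⟨hpr.1, mem_inter.2 ⟨g1, mem_a1.2 ⟨g2, ?_⟩⟩⟩
        simp only [Prod.fst_add, Prod.snd_add]
        omega
    refine ⟨u', v', ?_, hv', key v' c3, fun y hy => hA y (hy.mono hsub2)⟩
    unfold Near
    rw [abs_le, abs_le]
    omega
  · right
    push Not at hA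
    obtain ⟨y, hy, hy1⟩ := hA
    have hy2 := hcb y hy
    unfold PT at hy2
    obtain ⟨p, hp1, hp2⟩ := exists_label hy c3 hne
    have hp3 := mem_AG.1 (mem_inter.1 hp2).2
    unfold dE BR at hp3
    rw [mem_Bx, mem_Bx] at hp3
    simp only [Prod.fst_add, Prod.snd_add] at hp3
    have hp4 := unit_cases hp1
    -- position of `y`
    obtain ⟨τ, hτ⟩ : ∃ τ : ℤ, τ = y.1 - z.1 := ⟨_, rfl⟩
    have hloc : (f = 1 ∧ τ ≤ -(2 * ρ - 1) ∧ -R' ≤ τ) ∨ (f = -1 ∧ 2 * ρ ≤ τ ∧ τ ≤ R' + 1) := by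
      rcases hf with rfl | rfl
      · left
        refine ⟨rfl, ?_, ?_⟩ <;> rcases hε with rfl | rfl <;> omega
      · right
        refine ⟨rfl, ?_, ?_⟩ <;> rcases hε with rfl | rfl <;> omega
    have ha0 : 0 < a0 := by omega
    obtain ⟨i, hi⟩ : ∃ i : ℤ, i = τ / a0 := ⟨_, rfl⟩
    have hi1 : i * a0 ≤ τ := by rw [hi]; exact Int.ediv_mul_le _ (by omega)
    have hi2 : τ < i * a0 + a0 := by
      have := Int.lt_ediv_add_one_mul_self τ ha0
      rw [hi]
      linarith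
    have hI1 : i ≤ R' / a0 + 1 := by
      have h5 : τ ≤ R' + 1 := by omega
      have h6 : τ / a0 ≤ (R' + a0 * 1) / a0 := Int.ediv_le_ediv ha0 (by omega)
      rw [Int.add_mul_ediv_left _ _ (by omega)] at h6
      omega
    have hI2 : -(R' / a0 + 1) ≤ i := by
      rw [hi]
      refine Int.le_ediv_of_mul_le ha0 ?_
      have h5 := Int.lt_ediv_add_one_mul_self R' ha0
      have h6 : -R' ≤ τ := by omega
      linarith
    refine ⟨i, mem_Icc.2 ⟨hI2, hI1⟩, ?_⟩
    obtain ⟨t, htt⟩ : ∃ t : ℤ, t = i * a0 := ⟨_, rfl⟩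
    rw [← htt] at hi1 hi2 ⊢
    set x := wp 1 z t with hx
    have hx1 : x.1 = z.1 + t := rfl
    have hx2 : x.2 = z.2 - t := by rw [hx]; unfold wp; simp
    -- a far vertex
    obtain ⟨p', hp', hyp⟩ : ∃ p', Far x m p' ∧ Co (ω ∩ b) y p' := by
      by_cases h5 : Far x m v'
      · exact ⟨v', h5, hy.symm.trans c3⟩
      · refine ⟨u', ?_, hy.symm⟩
        unfold Far at h5 ⊢
        rw [le_abs, le_abs] at h5 ⊢
        omega
    have hp'0 := hp'
    unfold Far at hp'0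
    obtain ⟨v2, hv2, h6⟩ := open_exit (o := x) (M := m) hyp (by rw [abs_lt, abs_lt]; omega) hp'0
    have hv20 := hv2
    rw [le_abs, le_abs] at hv20
    obtain ⟨u2, hu2, h7⟩ := last_exit (w := x) (c := a0) h6 (by rw [inR_iff]; omega)
      (by rw [inR_iff]; omega)
    rw [inR_iff] at hu2
    have hALa : AL 1 x a0 m ⊆ a := by
      intro l hl
      rw [mem_AL] at hl
      rw [hadef, mem_AG]
      unfold dE BR
      rw [mem_Bx, mem_Bx]
      rcases hloc with ⟨rfl, hl1, hl2⟩ | ⟨rfl, hl1, hl2⟩ <;> rcases hε with rfl | rfl <;> omega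
    have c4 : Co (ω ∩ AL 1 x a0 m) u2 v2 := by
      refine h7.mono fun l hl => ?_
      obtain ⟨g1, g2⟩ := mem_sdiff.1 hl
      obtain ⟨g3, g4⟩ := mem_inter.1 g1
      obtain ⟨g5, g6⟩ := mem_inter.1 g3
      refine mem_inter.2 ⟨g5, ?_⟩
      unfold AL
      refine mem_sdiff.2 ⟨?_, g2⟩
      have g7 := (mem_AG.1 g6).2
      unfold dE at g7
      rw [mem_Bx] at g4
      rw [mem_HL]
      omega
    have cuu : Co (ω ∩ a) u u2 := by
      have e1 : Co (ω ∩ a) u y := cu.trans (hy.mono (inter_subset_inter_left hba))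
      have e2 : Co (ω ∩ a) y v2 := h6.mono (inter_subset_left.trans (inter_subset_inter_left hba))
      have e3 : Co (ω ∩ a) u2 v2 :=
        h7.mono ((sdiff_subset.trans inter_subset_left).trans (inter_subset_inter_left hba))
      exact (e1.trans e2).trans e3.symm
    have hno : ∀ s, ¬ Cl (Wr 1 x a0 m s) (AL 1 x a0 m) ω u2 := by
      rintro s ⟨w0, hw0, hw⟩
      have h8 := hcu w0 (cuu.trans (hw.mono (inter_subset_inter_left hALa)).symm)
      have h9 := hw0.1.1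
      unfold PT at h8
      unfold ht at h9
      omega
    refine ⟨u2, v2, ?_, hv2, c4, hno 1, hno (-1)⟩
    unfold Near
    rw [abs_le, abs_le]
    omega

end Pool.Agent.H23.TC
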