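import Mathlib
import Pool.Agent.H23.TC.Split

set_option autoImplicit false
open Finset

/-! # Convex corner with a mark, ties on the excluded wall: probabilities -/

namespace Pool.Agent.H23.TC

open Pool.Agent.H75.Perc Pool.Agent.H75.TwoArm Pool.Agent.H75.Four Pool.Agent.H49.Perc
open Pool.Agent.H99.NC Pool.Agent.H60.Q1 Pool.Agent.H60.Q1.Corn
open Pool.Agent.H20.Q1 (BR_mono BR_ends BR_of_ends last_exit)

variable {P dm : ℤ × ℤ → ℤ × ℤ → Prop} {q : ℤ × ℤ → ℝ} {w : ℤ × ℤ} {E : Finset (ℤ × ℤ)}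
  {f ε : ℤ} {z : ℤ × ℤ} {ρ R m a0 R' s : ℤ} {ω : Finset (ℤ × ℤ)}

/-- probability of the event, general densities -/
noncomputable def uq (q : ℤ × ℤ → ℝ) (P dm : ℤ × ℤ → ℤ × ℤ → Prop) (w : ℤ × ℤ) (ρ R : ℤ) : ℝ :=
  PrP q (AG dm w ρ R) (UG P dm w ρ R)

lemma PrP_UGq (hE : AG dm w ρ R ⊆ E) : PrP q E (UG P dm w ρ R) = uq q P dm w ρ R := by
  unfold uq
  rw [← PrP_restrict q hE]
  exact PrP_congr fun ω _ => UG_local

lemma uq_nonneg (hq : Pb q) : 0 ≤ uq q P dm w ρ R := PrP_nonneg hq _ _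

lemma uq_le_one (hq : Pb q) : uq q P dm w ρ R ≤ 1 := PrP_le_one hq _ _

/-- **submultiplicativity, general densities** -/
theorem uq_mul (hq : Pb q) (hρ : 1 ≤ ρ) (hρs : ρ < s) (hsR : s < R) :
    uq q P dm w ρ R ≤ uq q P dm w ρ s * uq q P dm w s R := by
  set E := AG dm w ρ R with hE
  set E1 := AG dm w ρ s with hE1
  set E2 := AG dm w s R with hE2
  have s1 : E1 ⊆ E := AG_sub le_rfl hsR.le
  have s2 : E2 ⊆ E := AG_sub hρs.le le_rfl
  have hdis : Disjoint E1 E2 := by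
    rw [disjoint_left]
    intro l h1 h2
    rw [hE1, mem_AG] at h1
    rw [hE2, mem_AG] at h2
    exact h2.1.2 h1.1.1
  have h1 := PrP_indep q s1 s2 hdis (UG P dm w ρ s) (UG P dm w s R)
  unfold uq
  rw [← h1]
  refine PrP_mono hq fun ω hω h => ?_
  obtain ⟨u, v, hu, hv, huv, hcu⟩ := h
  have hωE : ω ∩ E = ω := inter_eq_left.2 hω
  rw [hωE] at huv hcu
  unfold Near at hu
  unfold Far at hv
  constructor
  · -- inner annulus
    have hus : |u.1 - w.1| < s ∧ |u.2 - w.2| < s := ⟨by omega, by omega⟩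
    obtain ⟨v', hv', h2⟩ := open_exit huv hus (by omega)
    have e1 : ω ∩ E1 ∩ E1 = ω ∩ E1 := by rw [inter_assoc, inter_self]
    refine ⟨u, v', hu, hv', ?_, ?_⟩
    · rw [← hE1, e1]
      refine h2.mono fun l hl => ?_
      obtain ⟨g1, g2⟩ := mem_inter.1 hl
      have g3 := mem_AG.1 (hE ▸ hω g1)
      exact mem_inter.2 ⟨g1, by rw [hE1, mem_AG]; exact ⟨⟨g2, g3.1.2⟩, g3.2⟩⟩
    · intro y hy
      rw [← hE1, e1] at hy
      exact hcu y (hy.mono inter_subset_left)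
  · -- outer annulus
    have hus : inR w s u := by
      rw [inR_iff]
      rw [abs_le, abs_le] at hu
      omega
    have hvs : ¬ inR w s v := by
      rw [inR_iff]
      rw [le_abs, le_abs] at hv
      omega
    obtain ⟨u', hu', h2⟩ := last_exit huv hus hvs
    have e1 : ω ∩ E2 ∩ E2 = ω ∩ E2 := by rw [inter_assoc, inter_self]
    have e2 : ω \ BR w s ⊆ ω ∩ E2 := by
      intro l hl
      obtain ⟨g1, g2⟩ := mem_sdiff.1 hl
      have g3 := mem_AG.1 (hE ▸ hω g1)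
      exact mem_inter.2 ⟨g1, by rw [hE2, mem_AG]; exact ⟨⟨g3.1.1, g2⟩, g3.2⟩⟩
    refine ⟨u', v, ?_, hv, ?_, ?_⟩
    · unfold Near
      rw [inR_iff] at hu'
      rw [abs_le, abs_le]
      omega
    · rw [← hE2, e1]
      exact h2.mono e2
    · intro y hy
      rw [← hE2, e1] at hy
      refine hcu y ((huv.trans (h2.mono sdiff_subset).symm).trans (hy.mono inter_subset_left))

/-- smaller annuli -/
lemma uq_out (hq : Pb q) (hρ : 1 ≤ ρ) (hρs : ρ < s) (hsR : s ≤ R) :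
    uq q P dm w ρ R ≤ uq q P dm w ρ s := by
  rcases eq_or_lt_of_le hsR with rfl | h
  · exact le_rfl
  · refine (uq_mul hq hρ hρs h).trans ?_
    have := mul_le_mul_of_nonneg_left (uq_le_one (P := P) (dm := dm) (w := w) (ρ := s) (R := R) hq)
      (uq_nonneg (P := P) (dm := dm) (w := w) (ρ := ρ) (R := s) hq)
    linarith

lemma uq_in (hq : Pb q) (hρ : 1 ≤ ρ) (hρs : ρ ≤ s) (hsR : s < R) :
    uq q P dm w ρ R ≤ uq q P dm w s R := by
  rcases eq_or_lt_of_le hρs with rfl | h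
  · exact le_rfl
  · refine (uq_mul hq hρ h hsR).trans ?_
    have := mul_le_mul_of_nonneg_right (uq_le_one (P := P) (dm := dm) (w := w) (ρ := ρ) (R := s) hq)
      (uq_nonneg (P := P) (dm := dm) (w := w) (ρ := s) (R := R) hq)
    linarith

/-- the corner of the model -/
lemma exists_model (hf : f = 1 ∨ f = -1) (hε : ε = 0 ∨ ε = 1) (z : ℤ × ℤ) : ∃ w : ℤ × ℤ,
    (|w.1 - z.1| ≤ 1 ∧ |w.2 - z.2| ≤ 1) ∧ (z.1 + z.2 ≤ w.1 + w.2 ∧ w.1 + w.2 ≤ z.1 + z.2 + 1) ∧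
    f * (w.2 - w.1) = f * (z.2 - z.1) + ε := by
  rcases hf with rfl | rfl <;> rcases hε with rfl | rfl
  · refine ⟨z, ?_, ?_, ?_⟩
    · rw [sub_self, sub_self, abs_zero]; omega
    · omega
    · ring
  · refine ⟨(z.1, z.2 + 1), ?_, ?_, ?_⟩
    · rw [abs_le, abs_le]; simp only; omega
    · simp only; omega
    · simp only; ring
  · refine ⟨z, ?_, ?_, ?_⟩
    · rw [sub_self, sub_self, abs_zero]; omega
    · omega
    · ring
  · refine ⟨(z.1 + 1, z.2), ?_, ?_, ?_⟩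
    · rw [abs_le, abs_le]; simp only; omega
    · simp only; omega
    · simp only; ring

/-- the natural part -/
theorem NE_le (hf : f = 1 ∨ f = -1) (hε : ε = 0 ∨ ε = 1)
    (hQ : ∀ l : ℤ × ℤ, 2 * (z.1 + z.2 + 1) ≤ l.1 + l.2 → q l = 1 / 2) (hE : a1 f ε z ρ R ⊆ E)
    (hρ : 1 ≤ ρ) (hR : ρ + 3 ≤ R) : ∃ w : ℤ × ℤ,
    PrP q E (NE f ε z ρ R) ≤ ug (PQ2 1) (dQ 1 f) w (ρ + 1) (R - 1) := by
  obtain ⟨w, hw1, hw2, hw3⟩ := exists_model hf hε z
  rw [abs_le, abs_le] at hw1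
  refine ⟨w, ?_⟩
  set b := a1 f ε z ρ R with hb
  set M := AG (dQ 1 f) w (ρ + 1) (R - 1) with hM
  have hloc : ∀ ω : Finset (ℤ × ℤ), NE f ε z ρ R ω ↔ NE f ε z ρ R (ω ∩ b) := by
    intro ω
    unfold NE
    rw [← hb, inter_assoc, inter_self]
  have e1 : PrP q E (NE f ε z ρ R) = PrP q b (NE f ε z ρ R) :=
    PrP_local hE fun ω _ => hloc ω
  have e2 : PrP q b (NE f ε z ρ R) = PrP Corn.hf b (NE f ε z ρ R) := by
    unfold PrP
    exact Ex_congr_q (fun l hl => hQ l (mem_a1.1 hl).2) _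
  have e3 : PrP Corn.hf (b ∪ M) (NE f ε z ρ R) = PrP Corn.hf b (NE f ε z ρ R) :=
    PrP_local subset_union_left fun ω _ => hloc ω
  have e4 : PrP Corn.hf (b ∪ M) (UG (PQ2 1) (dQ 1 f) w (ρ + 1) (R - 1)) =
      ug (PQ2 1) (dQ 1 f) w (ρ + 1) (R - 1) := PrP_UG subset_union_right
  rw [e1, e2, ← e3, ← e4]
  refine PrP_mono hf_Pb fun ω _ h => ?_
  obtain ⟨u, v, hu, hv, huv, hcu⟩ := h
  unfold Near at hu
  unfold Far at hv
  rw [abs_le, abs_le] at hu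
  rw [le_abs, le_abs] at hv
  refine UG_intro (a := b) (u := u) (v := v) (by omega) ?_ ?_ huv ?_ ?_ ?_
  · unfold Near
    rw [abs_le, abs_le]
    omega
  · unfold Far
    rw [le_abs, le_abs]
    omega
  · intro y hy _
    have := hcu y hy
    unfold PQ2
    omega
  · intro y r hyr hy hl
    have h1 := hcu y hy
    have h2 := unit_cases hyr
    rw [mem_AG] at hl
    unfold dQ BR at hl
    rw [mem_Bx, mem_Bx] at hl
    rw [hb, mem_a1, mem_AG]
    unfold dE BR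
    rw [mem_Bx, mem_Bx, ← hw3]
    simp only [Prod.fst_add, Prod.snd_add] at hl ⊢
    rcases hf with rfl | rfl <;> omega
  · intro l hl _ _
    rw [hb, mem_a1, mem_AG] at hl
    unfold dE at hl
    rw [← hw3] at hl
    unfold dQ
    rcases hf with rfl | rfl <;> omega

/-- the block estimate -/
theorem block (hq : Pb q) (hf : f = 1 ∨ f = -1) (hε : ε = 0 ∨ ε = 1)
    (hQ : ∀ l : ℤ × ℤ, 2 * (z.1 + z.2 + 1) ≤ l.1 + l.2 → q l = 1 / 2)
    {C1 α1 : ℝ} (hN : ∀ (w : ℤ × ℤ) (ρ R : ℤ), 1 ≤ ρ → ρ ≤ R →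
      ug (PQ2 1) (dQ 1 f) w ρ R ≤ C1 * ((ρ : ℝ) / R) ^ (1 + α1)) {δ : ℝ} (ha : 2 ≤ a0)
    (hX : ∀ (x : ℤ × ℤ), x.1 + x.2 = z.1 + z.2 → ∀ E : Finset (ℤ × ℤ), AL 1 x a0 m ⊆ E →
      PrP q E (X3 1 x a0 m) ≤ δ) (hm : a0 < m)
    (hρ : 4 * m ≤ ρ) (hR' : 3 * ρ ≤ R') (hR : 2 * R' ≤ R) :
    uq q PT (dE f ε) z ρ R ≤ C1 * (((2 * ρ + 1 : ℤ) : ℝ) / ((R' - 1 : ℤ) : ℝ)) ^ (1 + α1) +
      (2 * (R' / a0 : ℤ) + 3) * δ := by
  classical
  set T := Icc (-(R' / a0 + 1)) (R' / a0 + 1) with hT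
  set E := AG (dE f ε) z ρ R ∪ (a1 f ε z (2 * ρ) R' ∪ T.biUnion fun i => AL 1 (wp 1 z (i * a0)) a0 m)
    with hE
  have e0 : uq q PT (dE f ε) z ρ R = PrP q E (UG PT (dE f ε) z ρ R) :=
    (PrP_UGq subset_union_left).symm
  rw [e0]
  refine le_trans (PrP_mono hq fun ω _ h => tie_split hf hε ha hm hρ hR' hR h) ?_
  refine (PrP_or_le hq _ _ _).trans (add_le_add ?_ ?_)
  · obtain ⟨w, hw⟩ := NE_le (E := E) (ρ := 2 * ρ) (R := R') hf hε hQ
      (subset_union_left.trans subset_union_right) (by omega) (by omega)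
    refine hw.trans (hN w _ _ (by omega) (by omega))
  · refine (PrP_exists_le hq _ _ _).trans ?_
    have h0 : 0 ≤ R' / a0 := Int.ediv_nonneg (by omega) (by omega)
    have hc : ((T.card : ℕ) : ℝ) = 2 * (R' / a0 : ℤ) + 3 := by
      rw [hT, Int.card_Icc, ← Int.cast_natCast, Int.toNat_of_nonneg (by omega)]
      push_cast
      ring
    calc ∑ i ∈ T, PrP q E (X3 1 (wp 1 z (i * a0)) a0 m) ≤ ∑ i ∈ T, δ := by
          refine sum_le_sum fun i hi => hX _ ?_ E ?_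
          · unfold wp
            simp only
            ring
          · exact (subset_biUnion_of_mem (fun i => AL 1 (wp 1 z (i * a0)) a0 m) hi).trans
              (subset_union_right.trans subset_union_right)
      _ = _ := by rw [sum_const, nsmul_eq_mul, hc]

end Pool.Agent.H23.TC
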