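import Mathlib
import Pool.Agent.H23.TC.Prob

set_option autoImplicit false
open Finset

/-!
# Convex corner with a mark, ties on the excluded wall

`tie_corner` : an untied crossing cluster of the quadrant annulus of radii `ρ ≥ a0`, `R` around a convex
corner, one of whose walls has ties and the other one is free, has probability at most
`C (ρ / R) ^ (1 + α)`.
-/

namespace Pool.Agent.H23.TC

open Pool.Agent.H75.Perc Pool.Agent.H75.TwoArm Pool.Agent.H75.Four Pool.Agent.H49.Perc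
open Pool.Agent.H99.NC Pool.Agent.H60.Q1 Pool.Agent.H60.Q1.Corn

/-- from one block to all scales -/
theorem iterate {u : ℤ → ℤ → ℝ} (h0 : ∀ ρ R, 0 ≤ u ρ R) (h1 : ∀ ρ R, u ρ R ≤ 1)
    (hmul : ∀ ρ s R, 1 ≤ ρ → ρ < s → s < R → u ρ R ≤ u ρ s * u s R) {K : ℤ} (hK : 2 ≤ K)
    {β : ℝ} (hβ : 0 ≤ β) {ρ0 : ℤ} (hρ0 : 1 ≤ ρ0)
    (hb : ∀ ρ, ρ0 ≤ ρ → u ρ (K * ρ) ≤ ((K : ℝ)⁻¹) ^ β) :
    ∀ (n : ℕ) (ρ R : ℤ), ρ0 ≤ ρ → ρ ≤ R → R - ρ ≤ n → u ρ R ≤ ((K : ℝ) * ρ / R) ^ β := by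
  have hK' : (2 : ℝ) ≤ K := by exact_mod_cast hK
  intro n
  induction n with
  | zero =>
    intro ρ R h2 h3 h4
    have h5 : R = ρ := by push_cast at h4; omega
    subst h5
    have hR : (1 : ℝ) ≤ R := by exact_mod_cast (by omega : (1 : ℤ) ≤ R)
    refine (h1 _ _).trans (Real.one_le_rpow ?_ hβ)
    rw [le_div_iff₀ (by linarith)]
    nlinarith
  | succ n ih =>
    intro ρ R h2 h3 h4
    have hρ : (1 : ℝ) ≤ ρ := by exact_mod_cast (by omega : (1 : ℤ) ≤ ρ)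
    have hR : (1 : ℝ) ≤ R := by exact_mod_cast (by omega : (1 : ℤ) ≤ R)
    by_cases h5 : R ≤ K * ρ
    · refine (h1 _ _).trans (Real.one_le_rpow ?_ hβ)
      rw [le_div_iff₀ (by linarith), one_mul]
      exact_mod_cast h5
    · push Not at h5
      have h6 : ρ < K * ρ := by nlinarith
      push_cast at h4
      have h7 := ih (K * ρ) R (by omega) (by omega) (by omega)
      refine (hmul ρ (K * ρ) R (by omega) h6 h5).trans ?_
      have h8 := mul_le_mul (hb ρ h2) h7 (h0 _ _) (Real.rpow_nonneg (by positivity) _)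
      refine h8.trans (le_of_eq ?_)
      have hK0 : (0 : ℝ) < K := by linarith
      have hρ00 : (0 : ℝ) < ρ := by linarith
      have hR0 : (0 : ℝ) < R := by linarith
      have h9 : (0 : ℝ) ≤ (K : ℝ) * ((K * ρ : ℤ) : ℝ) / R := by
        push_cast
        positivity
      rw [← Real.mul_rpow (by positivity) h9]
      congr 1
      push_cast
      field_simp

/-- all radii `≥ a0` -/
theorem iterate' {u : ℤ → ℤ → ℝ} (h0 : ∀ ρ R, 0 ≤ u ρ R) (h1 : ∀ ρ R, u ρ R ≤ 1)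
    (hmul : ∀ ρ s R, 1 ≤ ρ → ρ < s → s < R → u ρ R ≤ u ρ s * u s R) {K A : ℤ} (hK : 2 ≤ K)
    (hA : 1 ≤ A) {β : ℝ} (hβ : 0 ≤ β) {a0 : ℤ} (ha0 : 1 ≤ a0)
    (hb : ∀ ρ, A * a0 ≤ ρ → u ρ (K * ρ) ≤ ((K : ℝ)⁻¹) ^ β) {ρ R : ℤ} (hρ : a0 ≤ ρ) (hR : ρ ≤ R) :
    u ρ R ≤ ((K : ℝ) * A) ^ β * ((ρ : ℝ) / R) ^ β := by
  have hK' : (2 : ℝ) ≤ K := by exact_mod_cast hK
  have hA' : (1 : ℝ) ≤ A := by exact_mod_cast hA
  have hρ' : (1 : ℝ) ≤ ρ := by exact_mod_cast (by omega : (1 : ℤ) ≤ ρ)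
  have hR' : (1 : ℝ) ≤ R := by exact_mod_cast (by omega : (1 : ℤ) ≤ R)
  rw [← Real.mul_rpow (by positivity) (by positivity)]
  have hAρ : ρ ≤ A * ρ := by nlinarith
  by_cases h5 : R ≤ A * ρ
  · refine (h1 _ _).trans (Real.one_le_rpow ?_ hβ)
    rw [← mul_div_assoc, le_div_iff₀ (by linarith), one_mul]
    have h6 : (R : ℝ) ≤ A * ρ := by exact_mod_cast h5
    nlinarith [mul_nonneg (sub_nonneg.2 hA') (by linarith : (0 : ℝ) ≤ ρ),
      mul_nonneg (by linarith : (0 : ℝ) ≤ K - 1) (mul_nonneg (by linarith : (0 : ℝ) ≤ A)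
        (by linarith : (0 : ℝ) ≤ ρ))]
  · push Not at h5
    have h6 : u ρ R ≤ u (A * ρ) R := by
      rcases eq_or_lt_of_le hAρ with h | h
      · rw [← h]
      · refine (hmul ρ (A * ρ) R (by omega) h h5).trans ?_
        have := mul_le_mul_of_nonneg_right (h1 ρ (A * ρ)) (h0 (A * ρ) R)
        linarith
    refine h6.trans ?_
    have h7 := iterate h0 h1 hmul hK hβ (ρ0 := A * a0) (by nlinarith) hb (R - A * ρ).toNat (A * ρ) R
      (mul_le_mul_of_nonneg_left hρ (by omega)) h5.le (by omega)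
    refine h7.trans (le_of_eq ?_)
    congr 1
    push_cast
    ring

lemma exists_big {β : ℝ} (hβ : 0 < β) (M : ℝ) (k0 : ℕ) : ∃ k : ℕ, k0 ≤ k ∧ M ≤ (k : ℝ) ^ β := by
  obtain ⟨N, hN⟩ := Filter.eventually_atTop.1 ((tendsto_rpow_atTop hβ).eventually_ge_atTop M)
  obtain ⟨k, hk⟩ := exists_nat_ge (max N k0)
  refine ⟨k, ?_, hN k ((le_max_left _ _).trans hk)⟩
  exact_mod_cast (le_max_right N (k0 : ℝ)).trans hk

/-- **untied crossing clusters at a convex corner with a mark, ties on one wall** -/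
theorem tie_corner {c : ℝ} (hc0 : 0 < c) (hc1 : c < 1) : ∃ C α : ℝ, 0 < C ∧ 0 < α ∧
    ∀ (f ε h : ℤ) (q : ℤ × ℤ → ℝ) (a0 : ℤ), (f = 1 ∨ f = -1) → (ε = 0 ∨ ε = 1) →
    TD 1 h q c a0 → (∀ l : ℤ × ℤ, 2 * (h + 1) ≤ l.1 + l.2 → q l = 1 / 2) →
    ∀ z : ℤ × ℤ, z.1 + z.2 = h → ∀ ρ R : ℤ, a0 ≤ ρ → ρ ≤ R →
    uq q PT (dE f ε) z ρ R ≤ C * ((ρ : ℝ) / R) ^ (1 + α) := by
  obtain ⟨C3, α3, hC3, hα3, hX⟩ := tie_X3 hc0 hc1
  obtain ⟨C1, α1, hC1, hα1, hN⟩ := corner_mark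
  obtain ⟨k, hk3, hk⟩ := exists_big (β := α1 / 2) (by positivity)
    (2 * 2 ^ (1 + α1 / 2) * (C1 * 6 ^ (1 + α1))) 3
  have hkR : (3 : ℝ) ≤ k := by exact_mod_cast hk3
  set θ : ℝ := (((2 * (k : ℤ) : ℤ) : ℝ)⁻¹) ^ (1 + α1 / 2) with hθ
  have hθ0 : 0 < θ := by
    rw [hθ]
    refine Real.rpow_pos_of_pos ?_ _
    push_cast
    positivity
  obtain ⟨A, hA40, hA⟩ := exists_big (β := α3) hα3 (2 * (30 * k * C3 * 6 ^ α3) / θ) 40
  have hAR : (40 : ℝ) ≤ A := by exact_mod_cast hA40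
  refine ⟨(((2 * (k : ℤ) : ℤ) : ℝ) * ((A : ℤ) : ℝ)) ^ (1 + α1 / 2), α1 / 2, ?_, by positivity,
    fun f ε h q a0 hf hε H hQ z hz ρ R hρ hR => ?_⟩
  · refine Real.rpow_pos_of_pos ?_ _
    push_cast
    positivity
  have ha2 := H.a2
  have hfirst : C1 * (6 / (k : ℝ)) ^ (1 + α1) ≤ θ / 2 := by
    have e1 : (6 / (k : ℝ)) ^ (1 + α1) = 6 ^ (1 + α1) / ((k : ℝ) ^ (1 + α1 / 2) * (k : ℝ) ^ (α1 / 2)) := by
      rw [Real.div_rpow (by norm_num) (by positivity), ← Real.rpow_add (by positivity)]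
      congr 2
      ring
    have e2 : θ = 1 / (2 ^ (1 + α1 / 2) * (k : ℝ) ^ (1 + α1 / 2)) := by
      rw [hθ, Real.inv_rpow (by push_cast; positivity), one_div]
      congr 1
      push_cast
      rw [Real.mul_rpow (by norm_num) (by positivity)]
    rw [e1, e2]
    have h1 : (0 : ℝ) < (k : ℝ) ^ (1 + α1 / 2) := Real.rpow_pos_of_pos (by linarith) _
    have h2 : (0 : ℝ) < (k : ℝ) ^ (α1 / 2) := Real.rpow_pos_of_pos (by linarith) _
    have h3 : (0 : ℝ) < (2 : ℝ) ^ (1 + α1 / 2) := Real.rpow_pos_of_pos (by norm_num) _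
    rw [← mul_div_assoc, div_div, div_le_div_iff₀ (by positivity) (by positivity)]
    nlinarith [mul_le_mul_of_nonneg_left hk h1.le]
  refine iterate' (u := fun ρ R => uq q PT (dE f ε) z ρ R) (fun _ _ => uq_nonneg H.pb)
    (fun _ _ => uq_le_one H.pb) (fun _ _ _ h1 h2 h3 => uq_mul H.pb h1 h2 h3) (K := 2 * k) (A := A)
    (by omega) (by omega) (by positivity) (by omega : 1 ≤ a0) ?_ hρ hR
  intro r hr
  have hr40 : 40 * a0 ≤ r := by
    have : 40 * a0 ≤ (A : ℤ) * a0 := mul_le_mul_of_nonneg_right (by exact_mod_cast hA40) (by omega)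
    omega
  have hkr : 3 * r ≤ (k : ℤ) * r := mul_le_mul_of_nonneg_right (by exact_mod_cast hk3) (by omega)
  have hb := block (q := q) (z := z) (a0 := a0) (m := r / 5) (ρ := r) (R' := k * r)
    (R := 2 * (k : ℤ) * r) H.pb hf hε (fun l hl => hQ l (by rw [← hz]; exact hl))
    (C1 := C1) (α1 := α1) (fun w ρ R h1 h2 => (hN 1 f (Or.inl rfl) hf w ρ R h1 h2).2)
    (δ := C3 * ((a0 : ℝ) / ((r / 5 : ℤ) : ℝ)) ^ (1 + α3)) ha2
    (fun x hx E hE => hX 1 h q a0 (Or.inr rfl) H x (by unfold ht; rw [one_mul]; linarith) a0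
      (r / 5) le_rfl (by omega) E hE)
    (by omega) (by omega) hkr (by rw [mul_assoc])
  refine hb.trans ?_
  have hrR : (40 : ℝ) * a0 ≤ r := by exact_mod_cast hr40
  have ha0R : (2 : ℝ) ≤ a0 := by exact_mod_cast ha2
  have hr0 : (0 : ℝ) < r := by linarith
  -- the first term
  have t1 : C1 * (((2 * r + 1 : ℤ) : ℝ) / (((k : ℤ) * r - 1 : ℤ) : ℝ)) ^ (1 + α1) ≤ θ / 2 := by
    refine le_trans (mul_le_mul_of_nonneg_left (Real.rpow_le_rpow ?_ ?_ (by positivity)) hC1.le)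
      hfirst
    · have h2 : (0 : ℤ) ≤ (k : ℤ) * r - 1 := by omega
      have h3 : (0 : ℝ) ≤ (((k : ℤ) * r - 1 : ℤ) : ℝ) := by exact_mod_cast h2
      have h4 : (0 : ℤ) ≤ 2 * r + 1 := by omega
      have h5 : (0 : ℝ) ≤ ((2 * r + 1 : ℤ) : ℝ) := by exact_mod_cast h4
      positivity
    · push_cast
      have h2 : (3 : ℝ) * r ≤ k * r := mul_le_mul_of_nonneg_right hkR hr0.le
      have h3 : (k : ℝ) * 1 ≤ k * r := mul_le_mul_of_nonneg_left (by linarith) (by linarith)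
      rw [div_le_div_iff₀ (by linarith) (by linarith)]
      nlinarith
  -- the second term
  have t2 : (2 * (((k : ℤ) * r / a0 : ℤ) : ℝ) + 3) * (C3 * ((a0 : ℝ) / ((r / 5 : ℤ) : ℝ)) ^ (1 + α3)) ≤
      θ / 2 := by
    have h2 : (((k : ℤ) * r / a0 : ℤ) : ℝ) ≤ (k : ℝ) * r / a0 := by
      rw [le_div_iff₀ (by linarith)]
      have h3 : (k : ℤ) * r / a0 * a0 ≤ (k : ℤ) * r := Int.ediv_mul_le _ (by omega)
      exact_mod_cast h3
    have h3 : (1 : ℝ) ≤ (k : ℝ) * r / a0 := by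
      rw [le_div_iff₀ (by linarith)]
      nlinarith
    have h4 : (r : ℝ) / 6 ≤ ((r / 5 : ℤ) : ℝ) := by
      rw [div_le_iff₀ (by norm_num)]
      have h5 : r ≤ (r / 5) * 6 := by omega
      exact_mod_cast h5
    set y : ℝ := (a0 : ℝ) / r with hy
    have hy0 : 0 < y := by positivity
    have h5 : (a0 : ℝ) / ((r / 5 : ℤ) : ℝ) ≤ 6 * y := by
      rw [hy, ← mul_div_assoc, div_le_div_iff₀ (by linarith) hr0]
      nlinarith
    have h6 : ((a0 : ℝ) / ((r / 5 : ℤ) : ℝ)) ^ (1 + α3) ≤ (6 * y) * (6 * y) ^ α3 := by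
      have h7 : (6 * y) * (6 * y) ^ α3 = (6 * y) ^ (1 + α3) := by
        rw [Real.rpow_add (by positivity), Real.rpow_one]
      rw [h7]
      refine Real.rpow_le_rpow ?_ h5 (by positivity)
      have : (0 : ℝ) ≤ ((r / 5 : ℤ) : ℝ) := by linarith
      positivity
    have h7 : y ≤ 1 / A := by
      rw [hy, div_le_div_iff₀ hr0 (by linarith)]
      have h8 : (A : ℤ) * a0 ≤ r := hr
      have h9 : (A : ℝ) * a0 ≤ r := by exact_mod_cast h8
      linarith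
    have h8 : (6 * y) ^ α3 ≤ 6 ^ α3 / (A : ℝ) ^ α3 := by
      rw [← Real.div_rpow (by norm_num) (by linarith)]
      refine Real.rpow_le_rpow (by positivity) ?_ hα3.le
      calc 6 * y ≤ 6 * (1 / A) := by linarith
        _ = 6 / A := by ring
    have hAα : (0 : ℝ) < (A : ℝ) ^ α3 := Real.rpow_pos_of_pos (by linarith) _
    have h9 : 2 * (((k : ℤ) * r / a0 : ℤ) : ℝ) + 3 ≤ 5 * ((k : ℝ) * r / a0) := by linarith
    have h10 : (0 : ℝ) ≤ 2 * (((k : ℤ) * r / a0 : ℤ) : ℝ) + 3 := by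
      have : (0 : ℤ) ≤ (k : ℤ) * r / a0 := Int.ediv_nonneg (by omega) (by omega)
      have h11 : (0 : ℝ) ≤ (((k : ℤ) * r / a0 : ℤ) : ℝ) := by exact_mod_cast this
      linarith
    calc (2 * (((k : ℤ) * r / a0 : ℤ) : ℝ) + 3) * (C3 * ((a0 : ℝ) / ((r / 5 : ℤ) : ℝ)) ^ (1 + α3))
        ≤ (5 * ((k : ℝ) * r / a0)) * (C3 * ((6 * y) * (6 ^ α3 / (A : ℝ) ^ α3))) := by
          refine mul_le_mul h9 (mul_le_mul_of_nonneg_left (h6.trans
            (mul_le_mul_of_nonneg_left h8 (by positivity))) hC3.le) ?_ (by positivity)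
          refine mul_nonneg hC3.le (Real.rpow_nonneg ?_ _)
          have : (0 : ℝ) ≤ ((r / 5 : ℤ) : ℝ) := by linarith
          positivity
      _ = 30 * k * C3 * 6 ^ α3 / (A : ℝ) ^ α3 := by
          rw [hy]
          field_simp
          ring
      _ ≤ θ / 2 := by
          rw [div_le_iff₀ hAα]
          rw [div_le_iff₀ hθ0] at hA
          linarith
  have e : (((2 * (k : ℤ) : ℤ) : ℝ)⁻¹) ^ (1 + α1 / 2) = θ := rfl
  calc _ ≤ θ / 2 + θ / 2 := add_le_add t1 t2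
    _ = θ := by ring

end Pool.Agent.H23.TC
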