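import Mathlib
import Pool.Agent.H23.TC.Main
import Pool.Agent.H59.Q1.MassLink
import Pool.Agent.Q1.M6e.RingT

set_option autoImplicit false
open Finset

/-!
# Convex corner with a mark: bulk clusters without marked contact

`UT a w ρ R ω T` : a cluster of `ω ∩ a` crosses the annulus of radii `ρ, R` around `w` and contains no
vertex of `T`. `bits_corner` : bulk labels with density one half, wall vertices of one side of a quadrant
marked with probability `1 - σ`; the probability is at most `C (ρ / R) ^ (1 + α)` for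
`ρ ≥ K (1 - σ) ^ (-3/2)`. All orientations, all parities.
-/

namespace Pool.Agent.H23.TC

open Pool.Agent.H75.Perc Pool.Agent.H75.TwoArm Pool.Agent.H75.Four Pool.Agent.H49.Perc
open Pool.Agent.H99.NC Pool.Agent.H60.Q1 Pool.Agent.H60.Q1.Corn
open Pool.Agent.H20.Q1 (BR_mono BR_ends BR_of_ends last_exit)

/-- **independent marks and ties** -/
theorem bits_le {α β : Type*} [DecidableEq α] [DecidableEq β] (π : β → α) {σ τ : ℝ} (hτ0 : 0 ≤ τ)
    (hτ1 : τ ≤ 1) (hσ0 : 0 ≤ σ) (hσ1 : σ ≤ 1) {k : ℕ} (hk : σ ≤ (1 - τ) ^ k) (V : Finset α) :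
    ∀ (TL : Finset β) (F : Finset α → ℝ), (∀ s t, s ⊆ t → F t ≤ F s) →
    (∀ v ∈ V, (TL.filter (fun l => π l = v)).card ≤ k) →
    Ex (fun _ => 1 - σ) V F ≤
      Ex (fun _ => τ) TL (fun η => F (V.filter fun v => ∃ l ∈ η, π l = v)) := by
  classical
  have hq : Pb (fun _ : β => τ) := Pb.const hτ0 hτ1
  have hq' : Pb (fun _ : α => 1 - σ) := Pb.const (by linarith) (by linarith)
  induction V using Finset.induction_on with
  | empty =>
    intro TL F _ _
    simp only [filter_empty, Ex_const]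
    rw [show Ex (fun _ : α => 1 - σ) ∅ F = F ∅ by unfold Ex wt; simp]
  | insert v V hv ih =>
    intro TL F hF hc
    set B := TL.filter (fun l => π l = v) with hB
    have hBs : B ⊆ TL := filter_subset _ _
    set X0 := Ex (fun _ : β => τ) (TL \ B) (fun η => F (V.filter fun v => ∃ l ∈ η, π l = v)) with hX0
    set X1 := Ex (fun _ : β => τ) (TL \ B)
      (fun η => F (insert v (V.filter fun v => ∃ l ∈ η, π l = v))) with hX1
    have hle : X1 ≤ X0 := Ex_mono hq fun η _ => hF _ _ (subset_insert _ _)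
    have hsplit : Ex (fun _ : β => τ) TL
        (fun η => F ((insert v V).filter fun v => ∃ l ∈ η, π l = v)) =
        X1 + (1 - τ) ^ B.card * (X0 - X1) := by
      rw [Ex_split _ hBs]
      have e1 : ∀ η1, η1 ⊆ B → Ex (fun _ : β => τ) (TL \ B) (fun η2 =>
          F ((insert v V).filter fun v => ∃ l ∈ η1 ∪ η2, π l = v)) =
          X1 + ind (η1 ∩ B = ∅) * (X0 - X1) := by
        intro η1 h1
        by_cases h2 : η1 ∩ B = ∅
        · have h3 : η1 = ∅ := by rwa [inter_eq_left.2 h1] at h2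
          rw [ind_true h2, one_mul, add_sub_cancel, hX0]
          refine Ex_congr fun η2 hη2 => ?_
          congr 1
          rw [h3, empty_union, filter_insert, if_neg]
          rintro ⟨l, hl, hl2⟩
          have h4 := mem_sdiff.1 (hη2 hl)
          exact h4.2 (mem_filter.2 ⟨h4.1, hl2⟩)
        · rw [ind_false h2, zero_mul, add_zero, hX1]
          refine Ex_congr fun η2 hη2 => ?_
          congr 1
          obtain ⟨l0, hl0⟩ := nonempty_iff_ne_empty.2 h2
          have hl1 := mem_inter.1 hl0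
          rw [filter_insert, if_pos ⟨l0, mem_union_left _ hl1.1, (mem_filter.1 hl1.2).2⟩]
          congr 1
          refine filter_congr fun y hy => ⟨?_, ?_⟩
          · rintro ⟨l, hl, hl2⟩
            rcases mem_union.1 hl with h5 | h5
            · exfalso
              have h6 := (mem_filter.1 (h1 h5)).2
              rw [h6] at hl2
              exact hv (hl2 ▸ hy)
            · exact ⟨l, h5, hl2⟩
          · rintro ⟨l, hl, hl2⟩
            exact ⟨l, mem_union_right _ hl, hl2⟩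
      rw [Ex_congr e1, Ex_add, Ex_const, Ex_smul']
      have e2 := Pool.Agent.H59.Q1.PrP_avoid (q := fun _ : β => τ) (E := B) (B := B)
        (Finset.Subset.refl _)
      rw [prod_const] at e2
      unfold PrP at e2
      rw [e2]
    rw [hsplit, Ex_insert _ hv]
    have hcB : (1 - τ) ^ k ≤ (1 - τ) ^ B.card :=
      pow_le_pow_of_le_one (by linarith) (by linarith) (hc v (mem_insert_self _ _))
    have hc' : ∀ u ∈ V, ((TL \ B).filter (fun l => π l = u)).card ≤ k := fun u hu =>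
      (card_le_card (filter_subset_filter _ sdiff_subset)).trans (hc u (mem_insert_of_mem hu))
    have i0 := ih (TL \ B) F hF hc'
    have i1 := ih (TL \ B) (fun s => F (insert v s))
      (fun s t hst => hF _ _ (insert_subset_insert _ hst)) hc'
    have h5 := mul_le_mul_of_nonneg_right (hk.trans hcB) (sub_nonneg.2 hle)
    have h6 := mul_le_mul_of_nonneg_left i0 hσ0
    have h7 := mul_le_mul_of_nonneg_left i1 (by linarith : 0 ≤ 1 - σ)
    calc (1 - (1 - σ)) * Ex (fun _ => 1 - σ) V F +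
          (1 - σ) * Ex (fun _ => 1 - σ) V (fun ω => F (insert v ω)) ≤ σ * X0 + (1 - σ) * X1 := by
          rw [show 1 - (1 - σ) = σ by ring]
          exact add_le_add h6 h7
      _ ≤ _ := by nlinarith

/-- a crossing cluster without marked vertex -/
def UT (a : Finset (ℤ × ℤ)) (w : ℤ × ℤ) (ρ R : ℤ) (ω T : Finset (ℤ × ℤ)) : Prop :=
  ∃ u v, Near w ρ u ∧ Far w R v ∧ Co (ω ∩ a) u v ∧ ∀ y ∈ T, ¬ Co (ω ∩ a) u y

/-- labels of a quadrant with diagonal sides, all positions -/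
def dG (e f g1 g2 : ℤ) (l : ℤ × ℤ) : Prop :=
  2 * g1 ≤ e * (l.1 + l.2) ∧ 2 * g2 ≤ f * (l.2 - l.1)

/-- labels of the quadrant in the annulus -/
noncomputable def AA (e f g1 g2 : ℤ) (w : ℤ × ℤ) (ρ R : ℤ) : Finset (ℤ × ℤ) :=
  AG (fun _ => dG e f g1 g2) w ρ R

/-- the probability -/
noncomputable def bt (σ : ℝ) (E V a : Finset (ℤ × ℤ)) (w : ℤ × ℤ) (ρ R : ℤ) : ℝ :=
  Ex hf E (fun ω => Ex (fun _ => 1 - σ) V (fun T => ind (UT a w ρ R ω T)))

variable {e f ε g1 g2 : ℤ} {z w : ℤ × ℤ} {ρ R a0 : ℤ} {E V a ω T η : Finset (ℤ × ℤ)} {σ τ : ℝ}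

lemma mem_AA {l : ℤ × ℤ} : l ∈ AA e f g1 g2 w ρ R ↔
    (l ∈ BR w R ∧ l ∉ BR w ρ) ∧ dG e f g1 g2 l := mem_AG

lemma UT_anti {s t : Finset (ℤ × ℤ)} (h : s ⊆ t) : ind (UT a w ρ R ω t) ≤ ind (UT a w ρ R ω s) :=
  ind_mono fun ⟨u, v, h1, h2, h3, h4⟩ => ⟨u, v, h1, h2, h3, fun y hy => h4 y (h hy)⟩

/-- upper end of a tie label -/
def up (l : ℤ × ℤ) : ℤ × ℤ := ((l.1 + 1) / 2, (l.2 + 1) / 2)

/-- tie labels -/
noncomputable def tl (f ε : ℤ) (z : ℤ × ℤ) (ρ R : ℤ) : Finset (ℤ × ℤ) :=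
  AG (dE f ε) z ρ R \ a1 f ε z ρ R

lemma fib_up (v : ℤ × ℤ) : ((tl f ε z ρ R).filter (fun l => up l = v)).card ≤ 2 := by
  have h : (tl f ε z ρ R).filter (fun l => up l = v) ⊆
      {(2 * v.1, 2 * v.2 - 1), (2 * v.1 - 1, 2 * v.2)} := by
    intro l hl
    obtain ⟨h1, h2⟩ := mem_filter.1 hl
    unfold tl at h1
    rw [mem_sdiff, mem_a1, mem_AG] at h1
    have h3 := h1.1.1.1
    unfold BR at h3
    rw [mem_Bx] at h3
    unfold up at h2
    rw [mem_insert, mem_singleton]
    obtain ⟨x, y⟩ := l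
    obtain ⟨c, d⟩ := v
    simp only [Prod.mk.injEq] at h2 h3 ⊢
    omega
  exact (card_le_card h).trans (card_insert_le _ _)

/-- the crossing cluster of the bulk is an untied crossing cluster -/
lemma UT_UG (hf : f = 1 ∨ f = -1) (hz1 : z.1 + z.2 = g1 - 1)
    (hz2 : f * (z.2 - z.1) + ε = g2) (hw : |w.1 - z.1| ≤ 4 ∧ |w.2 - z.2| ≤ 4) (hρ : 1 ≤ ρ)
    (hR : ρ + 11 ≤ R) (hV : ∀ y, inR w R y → y.1 + y.2 = g1 → y ∈ V)
    (hη : η ⊆ tl f ε z (ρ + 5) (R - 5))
    (h : UT (AA 1 f g1 g2 w ρ R) w ρ R ω (V.filter fun v => ∃ l ∈ η, up l = v)) :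
    UG PT (dE f ε) z (ρ + 5) (R - 5) (ω ∩ a1 f ε z (ρ + 5) (R - 5) ∪ η) := by
  obtain ⟨u, v, hu, hv, huv, hun⟩ := h
  rw [abs_le, abs_le] at hw
  set a := AA 1 f g1 g2 w ρ R with ha
  set b := a1 f ε z (ρ + 5) (R - 5) with hb
  have hu0 := hu
  have hv0 := hv
  unfold Near at hu0
  unfold Far at hv0
  rw [abs_le, abs_le] at hu0
  rw [le_abs, le_abs] at hv0
  obtain ⟨v', hv', h2⟩ := open_exit (o := z) (M := R - 5) huv (by rw [abs_lt, abs_lt]; omega)
    (by rw [le_abs, le_abs]; omega)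
  have hv'0 := hv'
  rw [le_abs, le_abs] at hv'0
  obtain ⟨u', hu', h3⟩ := last_exit (w := z) (c := ρ + 5) h2 (by rw [inR_iff]; omega)
    (by rw [inR_iff]; omega)
  have hu'0 := hu'
  rw [inR_iff] at hu'0
  have hsub : (ω ∩ a ∩ Bx (z.1 - (R - 5)) (z.1 + (R - 5)) (z.2 - (R - 5)) (z.2 + (R - 5))) \
      BR z (ρ + 5) ⊆ ω ∩ b := by
    intro l hl
    obtain ⟨g1', g2'⟩ := mem_sdiff.1 hl
    obtain ⟨g3, g4⟩ := mem_inter.1 g1'
    obtain ⟨g5, g6⟩ := mem_inter.1 g3
    refine mem_inter.2 ⟨g5, mem_a1.2 ⟨mem_AG.2 ⟨⟨g4, g2'⟩, ?_⟩, ?_⟩⟩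
    · have g7 := (mem_AA.1 g6).2
      unfold dG at g7
      unfold dE
      omega
    · have g7 := (mem_AA.1 g6).2
      unfold dG at g7
      omega
  have hba : b ⊆ a := by
    intro l hl
    rw [hb, mem_a1, mem_AG] at hl
    unfold BR dE at hl
    rw [mem_Bx, mem_Bx] at hl
    rw [ha, mem_AA]
    unfold BR dG
    rw [mem_Bx, mem_Bx]
    omega
  have c3 : Co (ω ∩ b) u' v' := h3.mono hsub
  have cu : Co (ω ∩ a) u u' := (h2.mono inter_subset_left).trans
    (h3.mono (sdiff_subset.trans inter_subset_left)).symm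
  have hne : u' ≠ v' := by
    rintro rfl
    omega
  -- heights
  have hht : ∀ y, Co (ω ∩ a) u' y → g1 ≤ y.1 + y.2 ∧ inR w R y := by
    intro y hy
    obtain ⟨p, hp1, hp2⟩ := exists_label hy (c3.mono (inter_subset_inter_left hba)) hne
    have hp3 := mem_AA.1 (mem_inter.1 hp2).2
    have hp4 := unit_cases hp1
    unfold dG BR at hp3
    rw [mem_Bx, mem_Bx] at hp3
    simp only [Prod.fst_add, Prod.snd_add] at hp3
    rw [inR_iff]
    omega
  set θ := (ω ∩ b ∪ η) ∩ AG (dE f ε) z (ρ + 5) (R - 5) with hθ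
  have hbA : b ⊆ AG (dE f ε) z (ρ + 5) (R - 5) := filter_subset _ _
  have key : ∀ y, Co θ u' y → Co (ω ∩ a) u' y := by
    intro y hy
    induction hy with
    | refl => exact Co.refl _ _
    | @tail p r _ hpr ih =>
      obtain ⟨g3, g4⟩ := mem_inter.1 hpr.2
      rcases mem_union.1 g3 with g5 | g5
      · exact ih.tail ⟨hpr.1, inter_subset_inter_left hba g5⟩
      · exfalso
        have h5 := hht p ih
        have h6' := hη g5
        unfold tl at h6'
        rw [mem_sdiff] at h6'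
        have h7 := unit_cases hpr.1
        have h8 : ¬ 2 * (z.1 + z.2 + 1) ≤ (p + r).1 + (p + r).2 := fun h =>
          h6'.2 (mem_a1.2 ⟨h6'.1, h⟩)
        have h6 := mem_AG.1 h6'.1
        unfold dE at h6
        simp only [Prod.fst_add, Prod.snd_add] at h6 h8
        have h9 : p.1 + p.2 = g1 := by omega
        have h10 : up (p + r) = p := by
          unfold up
          simp only [Prod.fst_add, Prod.snd_add, Prod.ext_iff]
          omega
        exact hun p (mem_filter.2 ⟨hV p h5.2 h9, p + r, g5, h10⟩) (cu.trans ih)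
  refine ⟨u', v', ?_, hv', c3.mono ?_, fun y hy => ?_⟩
  · unfold Near
    rw [abs_le, abs_le]
    omega
  · intro l hl
    exact mem_inter.2 ⟨mem_union_left _ hl, hbA (mem_inter.1 hl).2⟩
  · have := (hht y (key y hy)).1
    unfold PT
    omega

end Pool.Agent.H23.TC
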