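import Mathlib
import Pool.Agent.H23.TC.Bits

set_option autoImplicit false
open Finset

/-!
# Convex corner with a mark, marked wall vertices: the theorem in all orientations

`bits_corner` : quadrant `2 g1 ≤ e (l.1 + l.2)`, `2 g2 ≤ f (l.2 - l.1)`, bulk labels with density one half,
the wall vertices of one side marked with probability `1 - σ`, the other side free.
-/

namespace Pool.Agent.H23.TC

open Pool.Agent.H75.Perc Pool.Agent.H75.TwoArm Pool.Agent.H75.Four Pool.Agent.H49.Perc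
open Pool.Agent.H99.NC Pool.Agent.H60.Q1 Pool.Agent.H60.Q1.Corn

variable {e f ε g1 g2 : ℤ} {z w : ℤ × ℤ} {ρ R a0 : ℤ} {E V a ω T η : Finset (ℤ × ℤ)} {σ τ : ℝ}

lemma exists_z (hf : f = 1 ∨ f = -1) (g1 g2 : ℤ) : ∃ (z : ℤ × ℤ) (ε : ℤ), (ε = 0 ∨ ε = 1) ∧
    z.1 + z.2 = g1 - 1 ∧ f * (z.2 - z.1) + ε = g2 := by
  rcases hf with rfl | rfl
  · refine ⟨((g1 - 1 - (g2 - (g2 - g1 + 1) % 2)) / 2, (g1 - 1 + (g2 - (g2 - g1 + 1) % 2)) / 2),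
      (g2 - g1 + 1) % 2, ?_, ?_, ?_⟩ <;> (try simp only) <;> omega
  · refine ⟨((g1 - 1 + (g2 - (g2 - g1 + 1) % 2)) / 2, (g1 - 1 - (g2 - (g2 - g1 + 1) % 2)) / 2),
      (g2 - g1 + 1) % 2, ?_, ?_, ?_⟩ <;> (try simp only) <;> omega

lemma bt_le_one (h0 : 0 ≤ σ) (h1 : σ ≤ 1) : bt σ E V a w ρ R ≤ 1 := by
  have hq : Pb (fun _ : ℤ × ℤ => 1 - σ) := Pb.const (by linarith) (by linarith)
  unfold bt
  have h := Ex_mono (E := E) (q := Corn.hf) hf_Pb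
    (f := fun ω => Ex (fun _ => 1 - σ) V (fun T => ind (UT a w ρ R ω T))) (g := fun _ => 1)
    (fun ω _ => PrP_le_one hq V (fun T => UT a w ρ R ω T))
  rwa [Ex_const] at h

/-- comparison with the wall with ties -/
theorem bt_le_uq (hf : f = 1 ∨ f = -1) (hz1 : z.1 + z.2 = g1 - 1)
    (hz2 : f * (z.2 - z.1) + ε = g2) (hw : |w.1 - z.1| ≤ 4 ∧ |w.2 - z.2| ≤ 4) (hρ : 1 ≤ ρ)
    (hR : ρ + 11 ≤ R) (hV : ∀ y, inR w R y → y.1 + y.2 = g1 → y ∈ V)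
    (hE : AA 1 f g1 g2 w ρ R ⊆ E) (hσ0 : 0 ≤ σ) (hσ1 : σ ≤ 1) (hτ0 : 0 ≤ τ) (hτ1 : τ ≤ 1 / 2)
    (hστ : σ ≤ (1 - τ) ^ 2) :
    bt σ E V (AA 1 f g1 g2 w ρ R) w ρ R ≤
      uq (fun l => if ht 1 l ≤ 2 * (g1 - 1) + 1 then τ else 1 / 2) PT (dE f ε) z (ρ + 5) (R - 5) := by
  set q : ℤ × ℤ → ℝ := fun l => if ht 1 l ≤ 2 * (g1 - 1) + 1 then τ else 1 / 2 with hq
  set a := AA 1 f g1 g2 w ρ R with ha
  set b := a1 f ε z (ρ + 5) (R - 5) with hb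
  set A := AG (dE f ε) z (ρ + 5) (R - 5) with hA
  set TL := tl f ε z (ρ + 5) (R - 5) with hTL
  have hw' := hw
  rw [abs_le, abs_le] at hw'
  have hba : b ⊆ a := by
    intro l hl
    rw [hb, mem_a1, mem_AG] at hl
    unfold BR dE at hl
    rw [mem_Bx, mem_Bx] at hl
    rw [ha, mem_AA]
    unfold BR dG
    rw [mem_Bx, mem_Bx]
    omega
  have hbA : b ⊆ A := filter_subset _ _
  have hqT : Pb (fun _ : ℤ × ℤ => τ) := Pb.const hτ0 (by linarith)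
  have hqb : ∀ l ∈ b, q l = 1 / 2 := by
    intro l hl
    have := (mem_a1.1 hl).2
    rw [hq]
    simp only
    rw [if_neg]
    unfold ht
    omega
  have hqt : ∀ l ∈ TL, q l = τ := by
    intro l hl
    rw [hTL, tl, mem_sdiff, mem_a1] at hl
    rw [hq]
    simp only
    rw [if_pos]
    unfold ht
    by_contra h
    exact hl.2 ⟨hl.1, by omega⟩
  have s1 : bt σ E V a w ρ R ≤ Ex Corn.hf E (fun ω => Ex (fun _ => τ) TL
      (fun η => ind (UG PT (dE f ε) z (ρ + 5) (R - 5) (ω ∩ b ∪ η)))) := by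
    unfold bt
    refine Ex_mono hf_Pb fun ω _ => ?_
    refine (bits_le up hτ0 (by linarith) hσ0 hσ1 (k := 2) hστ V TL
      (fun T => ind (UT a w ρ R ω T)) (fun s t h => UT_anti h)
      (fun v _ => fib_up v)).trans ?_
    refine Ex_mono hqT fun η hη => ind_mono fun h => ?_
    exact UT_UG hf hz1 hz2 hw hρ hR hV hη h
  have s2 : Ex Corn.hf E (fun ω => Ex (fun _ => τ) TL
      (fun η => ind (UG PT (dE f ε) z (ρ + 5) (R - 5) (ω ∩ b ∪ η)))) =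
      Ex q A (fun ω => ind (UG PT (dE f ε) z (ρ + 5) (R - 5) ω)) := by
    rw [Ex_restrict Corn.hf (hba.trans hE) (fun ω => Ex (fun _ => τ) TL
      (fun η => ind (UG PT (dE f ε) z (ρ + 5) (R - 5) (ω ∪ η)))), Ex_split q hbA]
    rw [Ex_congr_q (q := Corn.hf) (q' := q) (fun l hl => (hqb l hl).symm)]
    refine Ex_congr fun ω _ => ?_
    exact Ex_congr_q (q := fun _ => τ) (q' := q) (fun l hl => (hqt l hl).symm) _
  rw [s2] at s1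
  exact s1

/-- standard orientation -/
theorem bits_base : ∃ C α K : ℝ, 0 < C ∧ 0 < α ∧ 2 ≤ K ∧ ∀ (f g1 g2 : ℤ) (w : ℤ × ℤ) (σ : ℝ)
    (a0 : ℤ), (f = 1 ∨ f = -1) → |w.1 + w.2 - g1| ≤ 3 → |f * (w.2 - w.1) - g2| ≤ 3 → 0 ≤ σ → σ < 1 →
    K ≤ (1 - σ) ^ (3 / 2 : ℝ) * a0 → ∀ ρ R : ℤ, a0 ≤ ρ → ρ ≤ R → ∀ E V : Finset (ℤ × ℤ),
    AA 1 f g1 g2 w ρ R ⊆ E → (∀ y, inR w R y → y.1 + y.2 = g1 → y ∈ V) →
    bt σ E V (AA 1 f g1 g2 w ρ R) w ρ R ≤ C * ((ρ : ℝ) / R) ^ (1 + α) := by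
  obtain ⟨c, K', hc0, hc1, hK', hTD⟩ := Pool.Agent.Q1.M6e.td_tau
  obtain ⟨C, α, hC, hα, hM⟩ := tie_corner hc0 hc1
  have h7 : (1 : ℝ) ≤ 7 ^ (1 + α) := Real.one_le_rpow (by norm_num) (by linarith)
  refine ⟨7 ^ (1 + α) * (1 + C), α, max (K' * 2 ^ (3 / 2 : ℝ)) 2, by positivity, hα,
    le_max_right _ _, fun f g1 g2 w σ a0 hf hw1 hw2 hσ0 hσ1 hK ρ R hρ hR E V hE hV => ?_⟩
  have hs : 0 < 1 - σ := by linarith
  have hs1 : (1 - σ) ^ (3 / 2 : ℝ) ≤ 1 := Real.rpow_le_one hs.le (by linarith) (by norm_num)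
  have hs0 : 0 < (1 - σ) ^ (3 / 2 : ℝ) := Real.rpow_pos_of_pos hs _
  have ha2' : (2 : ℝ) ≤ a0 := by
    have h1 : 2 ≤ (1 - σ) ^ (3 / 2 : ℝ) * a0 := (le_max_right _ _).trans hK
    have h2 : 0 < (a0 : ℝ) := by
      by_contra h3
      push Not at h3
      nlinarith
    nlinarith
  have ha2 : 2 ≤ a0 := by exact_mod_cast ha2'
  have hρR : (2 : ℝ) ≤ ρ := by exact_mod_cast (by omega : 2 ≤ ρ)
  have hRR : (ρ : ℝ) ≤ R := by exact_mod_cast hR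
  have hx0 : 0 < (ρ : ℝ) / R := by
    have : (0 : ℝ) < R := by linarith
    have h0 : (0 : ℝ) < ρ := by linarith
    positivity
  have hxa : 0 < ((ρ : ℝ) / R) ^ (1 + α) := Real.rpow_pos_of_pos hx0 _
  by_cases hbig : R < ρ + 11
  · refine (bt_le_one hσ0 hσ1.le).trans ?_
    have h5 : 1 ≤ 7 * ((ρ : ℝ) / R) := by
      rw [← mul_div_assoc, le_div_iff₀ (by linarith)]
      have h6 : R ≤ 7 * ρ := by omega
      have h7 : (R : ℝ) ≤ 7 * ρ := by exact_mod_cast h6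
      linarith
    have h6 : 1 ≤ (7 * ((ρ : ℝ) / R)) ^ (1 + α) := Real.one_le_rpow h5 (by linarith)
    rw [Real.mul_rpow (by norm_num) hx0.le] at h6
    have h8 : 0 ≤ 7 ^ (1 + α) * ((ρ : ℝ) / R) ^ (1 + α) * C := by positivity
    nlinarith
  push Not at hbig
  obtain ⟨z, ε, hε, hz1, hz2⟩ := exists_z hf g1 g2
  have hwz : |w.1 - z.1| ≤ 4 ∧ |w.2 - z.2| ≤ 4 := by
    rw [abs_le] at hw1 hw2
    rw [abs_le, abs_le]
    rcases hf with rfl | rfl <;> omega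
  set τ : ℝ := (1 - σ) / 2 with hτ
  have hτ0 : 0 < τ := by positivity
  have h1 := bt_le_uq (τ := τ) (σ := σ) (E := E) (V := V) (w := w) (ρ := ρ) (R := R) hf hz1 hz2 hwz
    (by omega) hbig hV hE hσ0 hσ1.le hτ0.le (by rw [hτ]; linarith) (by rw [hτ]; nlinarith)
  refine h1.trans ?_
  have hT := hTD 1 (Or.inr rfl) (g1 - 1) τ hτ0 (by rw [hτ]; linarith) a0 ha2 (by
    have e1 : τ ^ (-(3 / 2) : ℝ) = 2 ^ (3 / 2 : ℝ) / (1 - σ) ^ (3 / 2 : ℝ) := by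
      rw [hτ, Real.rpow_neg (by positivity), Real.div_rpow hs.le (by norm_num), inv_div]
    rw [e1, ← mul_div_assoc, div_le_iff₀ hs0]
    have := (le_max_left (K' * 2 ^ (3 / 2 : ℝ)) 2).trans hK
    linarith)
  have h2 := hM f ε (g1 - 1) _ a0 hf hε hT (fun l hl => by
    rw [if_neg]
    unfold ht
    omega) z hz1 (ρ + 5) (R - 5) (by omega) (by omega)
  refine h2.trans ?_
  have h3 : (((ρ + 5 : ℤ) : ℝ) / ((R - 5 : ℤ) : ℝ)) ≤ 7 * ((ρ : ℝ) / R) := by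
    push_cast
    have h4 : (ρ : ℝ) + 11 ≤ R := by exact_mod_cast hbig
    rw [← mul_div_assoc, div_le_div_iff₀ (by linarith) (by linarith)]
    nlinarith
  have h4 : (((ρ + 5 : ℤ) : ℝ) / ((R - 5 : ℤ) : ℝ)) ^ (1 + α) ≤
      7 ^ (1 + α) * ((ρ : ℝ) / R) ^ (1 + α) := by
    rw [← Real.mul_rpow (by norm_num) hx0.le]
    refine Real.rpow_le_rpow ?_ h3 (by linarith)
    push_cast
    have h4 : (ρ : ℝ) + 11 ≤ R := by exact_mod_cast hbig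
    exact div_nonneg (by linarith) (by linarith)
  have h5 := mul_le_mul_of_nonneg_left h4 hC.le
  have h6 : 0 ≤ 7 ^ (1 + α) * ((ρ : ℝ) / R) ^ (1 + α) := by positivity
  nlinarith

/-! ### symmetries -/

/-- the vertex map of a symmetry -/
def gE (S : Sy) : (ℤ × ℤ) ↪ (ℤ × ℤ) := ⟨S.g, fun a b h => by
  have := congrArg S.g' h
  rwa [S.g'g, S.g'g] at this⟩

lemma G'_G (S : Sy) (l : ℤ × ℤ) : S.G' (S.G l) = l := S.G.injective (S.GG' _)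

theorem bt_sym (S : Sy) {w1 w2 : ℤ × ℤ} {a1 a2 : Finset (ℤ × ℤ)}
    (hN : ∀ u, Near w2 ρ (S.g u) ↔ Near w1 ρ u) (hF : ∀ u, Far w2 R (S.g u) ↔ Far w1 R u)
    (ha : ∀ l, l ∈ a2 ↔ S.G' l ∈ a1) (E V : Finset (ℤ × ℤ)) :
    bt σ E V a2 w2 ρ R = bt σ (E.image S.G') (V.image S.g') a1 w1 ρ R := by
  classical
  have e1 : (E.image S.G').map S.G = E := S.map_eq fun l => by
    rw [mem_image]
    constructor
    · intro h; exact ⟨l, h, rfl⟩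
    · rintro ⟨l', h1, h2⟩
      have h3 := congrArg S.G h2
      rw [S.GG', S.GG'] at h3
      rwa [← h3]
  have e2 : (V.image S.g').map (gE S) = V := by
    ext y
    rw [mem_map]
    constructor
    · rintro ⟨x, hx, rfl⟩
      obtain ⟨y, hy, rfl⟩ := mem_image.1 hx
      change S.g (S.g' y) ∈ V
      rwa [S.gg']
    · intro h
      exact ⟨S.g' y, mem_image_of_mem _ h, S.gg' y⟩
  unfold bt
  conv_lhs => rw [← e1]
  rw [Ex_map]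
  refine Ex_congr fun ω _ => ?_
  conv_lhs => rw [← e2]
  rw [Ex_map]
  refine Ex_congr fun T _ => ind_congr ?_
  unfold UT
  rw [S.map_inter ω ha]
  constructor
  · rintro ⟨u, v, h1, h2, h3, h4⟩
    refine ⟨S.g' u, S.g' v, ?_, ?_, ?_, ?_⟩
    · rw [← hN, S.gg']; exact h1
    · rw [← hF, S.gg']; exact h2
    · rw [← S.co_iff, S.gg', S.gg']; exact h3
    · intro y hy h5
      refine h4 (S.g y) (mem_map_of_mem (gE S) hy) ?_
      rw [← S.co_iff, S.gg'] at h5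
      exact h5
  · rintro ⟨u, v, h1, h2, h3, h4⟩
    refine ⟨S.g u, S.g v, (hN _).2 h1, (hF _).2 h2, (S.co_iff _ _ _).2 h3, ?_⟩
    intro y hy h5
    obtain ⟨x, hx, rfl⟩ := mem_map.1 hy
    exact h4 x hx ((S.co_iff _ _ _).1 h5)

/-- side `v.1 + v.2`, orientation `e` -/
def B2 (C α K : ℝ) (e : ℤ) : Prop := ∀ (f g1 g2 : ℤ) (w : ℤ × ℤ) (σ : ℝ)
    (a0 : ℤ), (f = 1 ∨ f = -1) → |e * (w.1 + w.2) - g1| ≤ 3 → |f * (w.2 - w.1) - g2| ≤ 3 → 0 ≤ σ →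
    σ < 1 → K ≤ (1 - σ) ^ (3 / 2 : ℝ) * a0 → ∀ ρ R : ℤ, a0 ≤ ρ → ρ ≤ R → ∀ E V : Finset (ℤ × ℤ),
    AA e f g1 g2 w ρ R ⊆ E → (∀ y : ℤ × ℤ, inR w R y → e * (y.1 + y.2) = g1 → y ∈ V) →
    bt σ E V (AA e f g1 g2 w ρ R) w ρ R ≤ C * ((ρ : ℝ) / R) ^ (1 + α)

/-- side `v.2 - v.1`, orientation `f` -/
def B1 (C α K : ℝ) (f : ℤ) : Prop := ∀ (e g1 g2 : ℤ) (w : ℤ × ℤ) (σ : ℝ)
    (a0 : ℤ), (e = 1 ∨ e = -1) → |e * (w.1 + w.2) - g1| ≤ 3 → |f * (w.2 - w.1) - g2| ≤ 3 → 0 ≤ σ →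
    σ < 1 → K ≤ (1 - σ) ^ (3 / 2 : ℝ) * a0 → ∀ ρ R : ℤ, a0 ≤ ρ → ρ ≤ R → ∀ E V : Finset (ℤ × ℤ),
    AA e f g1 g2 w ρ R ⊆ E → (∀ y : ℤ × ℤ, inR w R y → f * (y.2 - y.1) = g2 → y ∈ V) →
    bt σ E V (AA e f g1 g2 w ρ R) w ρ R ≤ C * ((ρ : ℝ) / R) ^ (1 + α)

lemma AA_X {l : ℤ × ℤ} : l ∈ AA e f g1 g2 w ρ R ↔
    (syX 0).G' l ∈ AA f e g2 g1 (-w.1, w.2) ρ R := by
  rw [mem_AA, mem_AA]
  unfold BR dG
  rw [mem_Bx, mem_Bx, mem_Bx, mem_Bx]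
  simp only [syX, mul_zero, zero_sub, sub_neg_eq_add]
  have e1 : -l.1 + l.2 = l.2 - l.1 := by ring
  have e2 : l.2 + l.1 = l.1 + l.2 := by ring
  rw [e1, e2]
  constructor
  · rintro ⟨⟨h1, h2⟩, h3, h4⟩
    exact ⟨⟨by omega, by omega⟩, h4, h3⟩
  · rintro ⟨⟨h1, h2⟩, h3, h4⟩
    exact ⟨⟨by omega, by omega⟩, h4, h3⟩

lemma AA_Y {l : ℤ × ℤ} : l ∈ AA e f g1 g2 w ρ R ↔
    (syY 0).G' l ∈ AA (-f) (-e) g2 g1 (w.1, -w.2) ρ R := by
  rw [mem_AA, mem_AA]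
  unfold BR dG
  rw [mem_Bx, mem_Bx, mem_Bx, mem_Bx]
  simp only [syY, mul_zero, zero_sub]
  have e1 : -f * (l.1 + -l.2) = f * (l.2 - l.1) := by ring
  have e2 : -e * (-l.2 - l.1) = e * (l.1 + l.2) := by ring
  rw [e1, e2]
  constructor
  · rintro ⟨⟨h1, h2⟩, h3, h4⟩
    exact ⟨⟨by omega, by omega⟩, h4, h3⟩
  · rintro ⟨⟨h1, h2⟩, h3, h4⟩
    exact ⟨⟨by omega, by omega⟩, h4, h3⟩

lemma near_X (u : ℤ × ℤ) : Near w ρ ((syX 0).g u) ↔ Near (-w.1, w.2) ρ u := by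
  unfold Near
  simp only [syX, zero_sub, abs_le]
  omega

lemma far_X (u : ℤ × ℤ) : Far w R ((syX 0).g u) ↔ Far (-w.1, w.2) R u := by
  unfold Far
  simp only [syX, zero_sub, le_abs]
  omega

lemma near_Y (u : ℤ × ℤ) : Near w ρ ((syY 0).g u) ↔ Near (w.1, -w.2) ρ u := by
  unfold Near
  simp only [syY, zero_sub, abs_le]
  omega

lemma far_Y (u : ℤ × ℤ) : Far w R ((syY 0).g u) ↔ Far (w.1, -w.2) R u := by
  unfold Far
  simp only [syY, zero_sub, le_abs]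
  omega

lemma sub_image (S : Sy) {a b E : Finset (ℤ × ℤ)} (ha : ∀ l, l ∈ a ↔ S.G' l ∈ b) (hE : a ⊆ E) :
    b ⊆ E.image S.G' := by
  intro l hl
  refine mem_image.2 ⟨S.G l, hE ((ha _).2 ?_), G'_G S l⟩
  rwa [G'_G]

variable {C α K : ℝ}

theorem B2_B1_X (h : B2 C α K e) : B1 C α K e := by
  intro f' g1 g2 w σ a0 hf hw1 hw2 hσ0 hσ1 hK ρ R hρ hR E V hE hV
  rw [bt_sym (syX 0) near_X far_X (fun l => AA_X) E V]
  refine h f' g2 g1 (-w.1, w.2) σ a0 hf ?_ ?_ hσ0 hσ1 hK ρ R hρ hR _ _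
    (sub_image (syX 0) (fun l => AA_X) hE) ?_
  · have e1 : e * (-w.1 + w.2) = e * (w.2 - w.1) := by ring
    simp only
    rw [e1]; exact hw2
  · have e1 : f' * (w.2 - -w.1) = f' * (w.1 + w.2) := by ring
    simp only
    rw [e1]; exact hw1
  · intro y hy hy1
    refine mem_image.2 ⟨(syX 0).g y, hV _ ?_ ?_, (syX 0).g'g y⟩
    · rw [inR_iff] at hy ⊢
      simp only [syX, zero_sub] at hy ⊢
      omega
    · simp only [syX, zero_sub]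
      rw [← hy1]
      ring

theorem B1_B2_X (h : B1 C α K e) : B2 C α K e := by
  intro f' g1 g2 w σ a0 hf hw1 hw2 hσ0 hσ1 hK ρ R hρ hR E V hE hV
  rw [bt_sym (syX 0) near_X far_X (fun l => AA_X) E V]
  refine h f' g2 g1 (-w.1, w.2) σ a0 hf ?_ ?_ hσ0 hσ1 hK ρ R hρ hR _ _
    (sub_image (syX 0) (fun l => AA_X) hE) ?_
  · have e1 : f' * (-w.1 + w.2) = f' * (w.2 - w.1) := by ring
    simp only
    rw [e1]; exact hw2
  · have e1 : e * (w.2 - -w.1) = e * (w.1 + w.2) := by ring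
    simp only
    rw [e1]; exact hw1
  · intro y hy hy1
    refine mem_image.2 ⟨(syX 0).g y, hV _ ?_ ?_, (syX 0).g'g y⟩
    · rw [inR_iff] at hy ⊢
      simp only [syX, zero_sub] at hy ⊢
      omega
    · simp only [syX, zero_sub]
      rw [← hy1]
      ring

theorem B2_B1_Y (h : B2 C α K e) : B1 C α K (-e) := by
  intro f' g1 g2 w σ a0 hf hw1 hw2 hσ0 hσ1 hK ρ R hρ hR E V hE hV
  have hAY : ∀ l, l ∈ AA f' (-e) g1 g2 w ρ R ↔
      (syY 0).G' l ∈ AA e (-f') g2 g1 (w.1, -w.2) ρ R := by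
    intro l
    rw [AA_Y, neg_neg]
  rw [bt_sym (syY 0) near_Y far_Y hAY E V]
  refine h (-f') g2 g1 (w.1, -w.2) σ a0 (by omega) ?_ ?_ hσ0 hσ1 hK ρ R hρ hR _ _
    (sub_image (syY 0) hAY hE) ?_
  · have e1 : e * (w.1 + -w.2) = -e * (w.2 - w.1) := by ring
    simp only
    rw [e1]; exact hw2
  · have e1 : -f' * (-w.2 - w.1) = f' * (w.1 + w.2) := by ring
    simp only
    rw [e1]; exact hw1
  · intro y hy hy1
    refine mem_image.2 ⟨(syY 0).g y, hV _ ?_ ?_, (syY 0).g'g y⟩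
    · rw [inR_iff] at hy ⊢
      simp only [syY, zero_sub] at hy ⊢
      omega
    · simp only [syY, zero_sub]
      rw [← hy1]
      ring

/-- **crossing clusters without marked wall vertex at a convex corner**, one side with marks, the other
one free; all orientations and parities -/
theorem bits_corner : ∃ C α K : ℝ, 0 < C ∧ 0 < α ∧ 2 ≤ K ∧ ∀ e : ℤ, (e = 1 ∨ e = -1) →
    B1 C α K e ∧ B2 C α K e := by
  obtain ⟨C, α, K, hC, hα, hK, h⟩ := bits_base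
  have h2 : B2 C α K 1 := by
    intro f g1 g2 w σ a0 hf hw1 hw2
    rw [one_mul] at hw1
    intro hσ0 hσ1 hK' ρ R hρ hR E V hE hV
    exact h f g1 g2 w σ a0 hf hw1 hw2 hσ0 hσ1 hK' ρ R hρ hR E V hE
      (fun y hy hy1 => hV y hy (by rw [one_mul]; exact hy1))
  have h1 : B1 C α K 1 := B2_B1_X h2
  have h1' : B1 C α K (-1) := B2_B1_Y h2
  refine ⟨C, α, K, hC, hα, hK, fun e he => ?_⟩
  rcases he with rfl | rfl
  · exact ⟨h1, h2⟩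
  · exact ⟨h1', B1_B2_X h1'⟩

end Pool.Agent.H23.TC
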