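import Mathlib
import Pool.Agent.H23.TC.BitsMain

set_option autoImplicit false
open Finset

/-!
# Flat wall with marked vertices

`bits_flat` : half annulus at a diagonal wall, wall vertices marked with probability `1 - σ`: the
probability that a crossing cluster has no marked vertex is at most `C (ρ / R) ^ (1 + α)`. All four walls.
-/

namespace Pool.Agent.H23.TC

open Pool.Agent.H75.Perc Pool.Agent.H75.TwoArm Pool.Agent.H75.Four Pool.Agent.H49.Perc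
open Pool.Agent.H99.NC Pool.Agent.H60.Q1 Pool.Agent.H60.Q1.Corn
open Pool.Agent.H20.Q1 (BR_mono BR_ends BR_of_ends last_exit)

variable {e f g g1 g2 : ℤ} {z w : ℤ × ℤ} {ρ R a0 : ℤ} {E V a ω T η : Finset (ℤ × ℤ)} {σ τ : ℝ}

/-- labels of the half annulus, wall `v.1 + v.2 = const` -/
noncomputable def AS (e g : ℤ) (w : ℤ × ℤ) (ρ R : ℤ) : Finset (ℤ × ℤ) :=
  AG (fun _ l => 2 * g ≤ e * (l.1 + l.2)) w ρ R

/-- labels of the half annulus, wall `v.2 - v.1 = const` -/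
noncomputable def AD (e g : ℤ) (w : ℤ × ℤ) (ρ R : ℤ) : Finset (ℤ × ℤ) :=
  AG (fun _ l => 2 * g ≤ e * (l.2 - l.1)) w ρ R

lemma mem_AS {l : ℤ × ℤ} : l ∈ AS e g w ρ R ↔
    (l ∈ BR w R ∧ l ∉ BR w ρ) ∧ 2 * g ≤ e * (l.1 + l.2) := mem_AG

lemma mem_AD {l : ℤ × ℤ} : l ∈ AD e g w ρ R ↔
    (l ∈ BR w R ∧ l ∉ BR w ρ) ∧ 2 * g ≤ e * (l.2 - l.1) := mem_AG

/-- bulk labels -/
noncomputable def b1 (z : ℤ × ℤ) (ρ R : ℤ) : Finset (ℤ × ℤ) :=
  (AL 1 z ρ R).filter fun l => 2 * (z.1 + z.2 + 1) ≤ l.1 + l.2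

lemma mem_b1 {l : ℤ × ℤ} : l ∈ b1 z ρ R ↔ l ∈ AL 1 z ρ R ∧ 2 * (z.1 + z.2 + 1) ≤ l.1 + l.2 := by
  unfold b1
  rw [mem_filter]

lemma fib_up' (v : ℤ × ℤ) : (((AL 1 z ρ R) \ b1 z ρ R).filter (fun l => up l = v)).card ≤ 2 := by
  have h : ((AL 1 z ρ R) \ b1 z ρ R).filter (fun l => up l = v) ⊆
      {(2 * v.1, 2 * v.2 - 1), (2 * v.1 - 1, 2 * v.2)} := by
    intro l hl
    obtain ⟨h1, h2⟩ := mem_filter.1 hl
    rw [mem_sdiff, mem_b1, mem_AL] at h1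
    unfold up at h2
    rw [mem_insert, mem_singleton]
    obtain ⟨x, y⟩ := l
    obtain ⟨c, d⟩ := v
    simp only [Prod.mk.injEq] at h1 h2 ⊢
    omega
  exact (card_le_card h).trans (card_insert_le _ _)

/-- the crossing cluster of the bulk is an untied crossing cluster -/
lemma UT_X3 (hz1 : z.1 + z.2 = g - 1) (hw : |w.1 - z.1| ≤ 4 ∧ |w.2 - z.2| ≤ 4) (hρ : 1 ≤ ρ)
    (hR : ρ + 11 ≤ R) (hV : ∀ y, inR w R y → y.1 + y.2 = g → y ∈ V)
    (hη : η ⊆ AL 1 z (ρ + 5) (R - 5) \ b1 z (ρ + 5) (R - 5))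
    (h : UT (AS 1 g w ρ R) w ρ R ω (V.filter fun v => ∃ l ∈ η, up l = v)) :
    X3 1 z (ρ + 5) (R - 5) (ω ∩ b1 z (ρ + 5) (R - 5) ∪ η) := by
  obtain ⟨u, v, hu, hv, huv, hun⟩ := h
  rw [abs_le, abs_le] at hw
  set a := AS 1 g w ρ R with ha
  set b := b1 z (ρ + 5) (R - 5) with hb
  have hu0 := hu
  have hv0 := hv
  unfold Near at hu0
  unfold Far at hv0
  rw [abs_le, abs_le] at hu0
  rw [le_abs, le_abs] at hv0
  obtain ⟨v', hv', h2⟩ := open_exit (o := z) (M := R - 5) huv (by rw [abs_lt, abs_lt]; omega)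
    (by rw [le_abs, le_abs]; omega)
  have hv'0 := hv'
  rw [le_abs, le_abs] at hv'0
  obtain ⟨u', hu', h3⟩ := last_exit (w := z) (c := ρ + 5) h2 (by rw [inR_iff]; omega)
    (by rw [inR_iff]; omega)
  have hu'0 := hu'
  rw [inR_iff] at hu'0
  have hsub : (ω ∩ a ∩ Bx (z.1 - (R - 5)) (z.1 + (R - 5)) (z.2 - (R - 5)) (z.2 + (R - 5))) \
      BR z (ρ + 5) ⊆ ω ∩ b := by
    intro l hl
    obtain ⟨g1', g2'⟩ := mem_sdiff.1 hl
    obtain ⟨g3, g4⟩ := mem_inter.1 g1'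
    obtain ⟨g5, g6⟩ := mem_inter.1 g3
    have g7 := (mem_AS.1 g6).2
    unfold BR at g2'
    rw [mem_Bx] at g4 g2'
    refine mem_inter.2 ⟨g5, mem_b1.2 ⟨mem_AL.2 ⟨⟨g4, ?_⟩, g2'⟩, ?_⟩⟩ <;> omega
  have hba : b ⊆ a := by
    intro l hl
    rw [hb, mem_b1, mem_AL] at hl
    rw [ha, mem_AS]
    unfold BR
    rw [mem_Bx, mem_Bx]
    omega
  have c3 : Co (ω ∩ b) u' v' := h3.mono hsub
  have cu : Co (ω ∩ a) u u' := (h2.mono inter_subset_left).trans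
    (h3.mono (sdiff_subset.trans inter_subset_left)).symm
  have hne : u' ≠ v' := by
    rintro rfl
    omega
  -- heights
  have hht : ∀ y, Co (ω ∩ a) u' y → g ≤ y.1 + y.2 ∧ inR w R y := by
    intro y hy
    obtain ⟨p, hp1, hp2⟩ := exists_label hy (c3.mono (inter_subset_inter_left hba)) hne
    have hp3 := mem_AS.1 (mem_inter.1 hp2).2
    have hp4 := unit_cases hp1
    unfold BR at hp3
    rw [mem_Bx, mem_Bx] at hp3
    simp only [Prod.fst_add, Prod.snd_add] at hp3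
    rw [inR_iff]
    omega
  set θ := (ω ∩ b ∪ η) ∩ AL 1 z (ρ + 5) (R - 5) with hθ
  have hbA : b ⊆ AL 1 z (ρ + 5) (R - 5) := filter_subset _ _
  have key : ∀ y, Co θ u' y → Co (ω ∩ a) u' y := by
    intro y hy
    induction hy with
    | refl => exact Co.refl _ _
    | @tail p r _ hpr ih =>
      obtain ⟨g3, g4⟩ := mem_inter.1 hpr.2
      rcases mem_union.1 g3 with g5 | g5
      · exact ih.tail ⟨hpr.1, inter_subset_inter_left hba g5⟩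
      · exfalso
        have h5 := hht p ih
        have h6' := hη g5
        rw [mem_sdiff] at h6'
        have h7 := unit_cases hpr.1
        have h8 : ¬ 2 * (z.1 + z.2 + 1) ≤ (p + r).1 + (p + r).2 := fun h =>
          h6'.2 (mem_b1.2 ⟨h6'.1, h⟩)
        have h6 := mem_AL.1 h6'.1
        simp only [Prod.fst_add, Prod.snd_add] at h6 h8
        have h9 : p.1 + p.2 = g := by omega
        have h10 : up (p + r) = p := by
          unfold up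
          simp only [Prod.fst_add, Prod.snd_add, Prod.ext_iff]
          omega
        exact hun p (mem_filter.2 ⟨hV p h5.2 h9, p + r, g5, h10⟩) (cu.trans ih)
  have hno : ∀ s, ¬ Cl (Wr 1 z (ρ + 5) (R - 5) s) (AL 1 z (ρ + 5) (R - 5)) (ω ∩ b ∪ η) u' := by
    rintro s ⟨w0, hw0, hw1⟩
    have h8 := (hht w0 (key w0 hw1.symm)).1
    have h9 := hw0.1.1
    unfold ht at h9
    omega
  refine ⟨u', v', ?_, hv', c3.mono ?_, hno 1, hno (-1)⟩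
  · unfold Near
    rw [abs_le, abs_le]
    omega
  · intro l hl
    exact mem_inter.2 ⟨mem_union_left _ hl, hbA (mem_inter.1 hl).2⟩

/-- comparison with the wall with ties -/
theorem bt_le_X3 (hz1 : z.1 + z.2 = g - 1) (hw : |w.1 - z.1| ≤ 4 ∧ |w.2 - z.2| ≤ 4) (hρ : 1 ≤ ρ)
    (hR : ρ + 11 ≤ R) (hV : ∀ y, inR w R y → y.1 + y.2 = g → y ∈ V)
    (hE : AS 1 g w ρ R ⊆ E) (hσ0 : 0 ≤ σ) (hσ1 : σ ≤ 1) (hτ0 : 0 ≤ τ) (hτ1 : τ ≤ 1 / 2)
    (hστ : σ ≤ (1 - τ) ^ 2) :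
    bt σ E V (AS 1 g w ρ R) w ρ R ≤
      PrP (fun l => if ht 1 l ≤ 2 * (g - 1) + 1 then τ else 1 / 2) (AL 1 z (ρ + 5) (R - 5))
        (X3 1 z (ρ + 5) (R - 5)) := by
  set q : ℤ × ℤ → ℝ := fun l => if ht 1 l ≤ 2 * (g - 1) + 1 then τ else 1 / 2 with hq
  set a := AS 1 g w ρ R with ha
  set b := b1 z (ρ + 5) (R - 5) with hb
  set A := AL 1 z (ρ + 5) (R - 5) with hA
  set TL := A \ b with hTL
  have hw' := hw
  rw [abs_le, abs_le] at hw'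
  have hba : b ⊆ a := by
    intro l hl
    rw [hb, mem_b1, mem_AL] at hl
    rw [ha, mem_AS]
    unfold BR
    rw [mem_Bx, mem_Bx]
    omega
  have hbA : b ⊆ A := filter_subset _ _
  have hqT : Pb (fun _ : ℤ × ℤ => τ) := Pb.const hτ0 (by linarith)
  have hqb : ∀ l ∈ b, q l = 1 / 2 := by
    intro l hl
    have := (mem_b1.1 hl).2
    rw [hq]
    simp only
    rw [if_neg]
    unfold ht
    omega
  have hqt : ∀ l ∈ TL, q l = τ := by
    intro l hl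
    rw [hTL, mem_sdiff, mem_b1] at hl
    rw [hq]
    simp only
    rw [if_pos]
    unfold ht
    by_contra h
    exact hl.2 ⟨hl.1, by omega⟩
  have s1 : bt σ E V a w ρ R ≤ Ex Corn.hf E (fun ω => Ex (fun _ => τ) TL
      (fun η => ind (X3 1 z (ρ + 5) (R - 5) (ω ∩ b ∪ η)))) := by
    unfold bt
    refine Ex_mono hf_Pb fun ω _ => ?_
    refine (bits_le up hτ0 (by linarith) hσ0 hσ1 (k := 2) hστ V TL
      (fun T => ind (UT a w ρ R ω T)) (fun s t h => UT_anti h)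
      (fun v _ => fib_up' v)).trans ?_
    refine Ex_mono hqT fun η hη => ind_mono fun h => ?_
    exact UT_X3 hz1 hw hρ hR hV hη h
  have s2 : Ex Corn.hf E (fun ω => Ex (fun _ => τ) TL
      (fun η => ind (X3 1 z (ρ + 5) (R - 5) (ω ∩ b ∪ η)))) =
      Ex q A (fun ω => ind (X3 1 z (ρ + 5) (R - 5) ω)) := by
    rw [Ex_restrict Corn.hf (hba.trans hE) (fun ω => Ex (fun _ => τ) TL
      (fun η => ind (X3 1 z (ρ + 5) (R - 5) (ω ∪ η)))), Ex_split q hbA]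
    rw [Ex_congr_q (q := Corn.hf) (q' := q) (fun l hl => (hqb l hl).symm)]
    refine Ex_congr fun ω _ => ?_
    exact Ex_congr_q (q := fun _ => τ) (q' := q) (fun l hl => (hqt l hl).symm) _
  rw [s2] at s1
  exact s1

/-- wall `v.1 + v.2`, orientation `e` -/
def FS (C α K : ℝ) (e : ℤ) : Prop := ∀ (g : ℤ) (w : ℤ × ℤ) (σ : ℝ) (a0 : ℤ),
    |e * (w.1 + w.2) - g| ≤ 3 → 0 ≤ σ → σ < 1 → K ≤ (1 - σ) ^ (3 / 2 : ℝ) * a0 →
    ∀ ρ R : ℤ, a0 ≤ ρ → ρ ≤ R → ∀ E V : Finset (ℤ × ℤ), AS e g w ρ R ⊆ E →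
    (∀ y : ℤ × ℤ, inR w R y → e * (y.1 + y.2) = g → y ∈ V) →
    bt σ E V (AS e g w ρ R) w ρ R ≤ C * ((ρ : ℝ) / R) ^ (1 + α)

/-- wall `v.2 - v.1`, orientation `e` -/
def FD (C α K : ℝ) (e : ℤ) : Prop := ∀ (g : ℤ) (w : ℤ × ℤ) (σ : ℝ) (a0 : ℤ),
    |e * (w.2 - w.1) - g| ≤ 3 → 0 ≤ σ → σ < 1 → K ≤ (1 - σ) ^ (3 / 2 : ℝ) * a0 →
    ∀ ρ R : ℤ, a0 ≤ ρ → ρ ≤ R → ∀ E V : Finset (ℤ × ℤ), AD e g w ρ R ⊆ E →
    (∀ y : ℤ × ℤ, inR w R y → e * (y.2 - y.1) = g → y ∈ V) →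
    bt σ E V (AD e g w ρ R) w ρ R ≤ C * ((ρ : ℝ) / R) ^ (1 + α)

/-- standard orientation -/
theorem flat_base : ∃ C α K : ℝ, 0 < C ∧ 0 < α ∧ 2 ≤ K ∧ FS C α K 1 := by
  obtain ⟨c, K', hc0, hc1, hK', hTD⟩ := Pool.Agent.Q1.M6e.td_tau
  obtain ⟨C, α, hC, hα, hM⟩ := tie_X3 hc0 hc1
  have h7 : (1 : ℝ) ≤ 7 ^ (1 + α) := Real.one_le_rpow (by norm_num) (by linarith)
  refine ⟨7 ^ (1 + α) * (1 + C), α, max (K' * 2 ^ (3 / 2 : ℝ)) 2, by positivity, hα,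
    le_max_right _ _, fun g w σ a0 hw1 hσ0 hσ1 hK ρ R hρ hR E V hE hV => ?_⟩
  simp only [one_mul] at hw1 hV
  have hs : 0 < 1 - σ := by linarith
  have hs1 : (1 - σ) ^ (3 / 2 : ℝ) ≤ 1 := Real.rpow_le_one hs.le (by linarith) (by norm_num)
  have hs0 : 0 < (1 - σ) ^ (3 / 2 : ℝ) := Real.rpow_pos_of_pos hs _
  have ha2' : (2 : ℝ) ≤ a0 := by
    have h1 : 2 ≤ (1 - σ) ^ (3 / 2 : ℝ) * a0 := (le_max_right _ _).trans hK
    have h2 : 0 < (a0 : ℝ) := by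
      by_contra h3
      push Not at h3
      nlinarith
    nlinarith
  have ha2 : 2 ≤ a0 := by exact_mod_cast ha2'
  have hρR : (2 : ℝ) ≤ ρ := by exact_mod_cast (by omega : 2 ≤ ρ)
  have hRR : (ρ : ℝ) ≤ R := by exact_mod_cast hR
  have hx0 : 0 < (ρ : ℝ) / R := by
    have : (0 : ℝ) < R := by linarith
    have h0 : (0 : ℝ) < ρ := by linarith
    positivity
  have hxa : 0 < ((ρ : ℝ) / R) ^ (1 + α) := Real.rpow_pos_of_pos hx0 _
  by_cases hbig : R < ρ + 11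
  · refine (bt_le_one hσ0 hσ1.le).trans ?_
    have h5 : 1 ≤ 7 * ((ρ : ℝ) / R) := by
      rw [← mul_div_assoc, le_div_iff₀ (by linarith)]
      have h6 : R ≤ 7 * ρ := by omega
      have h7 : (R : ℝ) ≤ 7 * ρ := by exact_mod_cast h6
      linarith
    have h6 : 1 ≤ (7 * ((ρ : ℝ) / R)) ^ (1 + α) := Real.one_le_rpow h5 (by linarith)
    rw [Real.mul_rpow (by norm_num) hx0.le] at h6
    have h8 : 0 ≤ 7 ^ (1 + α) * ((ρ : ℝ) / R) ^ (1 + α) * C := by positivity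
    nlinarith
  push Not at hbig
  obtain ⟨z, hz1, hwz⟩ : ∃ z : ℤ × ℤ, z.1 + z.2 = g - 1 ∧ (|w.1 - z.1| ≤ 4 ∧ |w.2 - z.2| ≤ 4) := by
    refine ⟨(g - 1 - w.2, w.2), ?_, ?_⟩
    · simp only
      ring
    · rw [abs_le] at hw1
      rw [abs_le, abs_le]
      simp only
      omega
  set τ : ℝ := (1 - σ) / 2 with hτ
  have hτ0 : 0 < τ := by positivity
  have h1 := bt_le_X3 (τ := τ) (σ := σ) (E := E) (V := V) (w := w) (ρ := ρ) (R := R) hz1 hwz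
    (by omega) hbig hV hE hσ0 hσ1.le hτ0.le (by rw [hτ]; linarith) (by rw [hτ]; nlinarith)
  refine h1.trans ?_
  have hT := hTD 1 (Or.inr rfl) (g - 1) τ hτ0 (by rw [hτ]; linarith) a0 ha2 (by
    have e1 : τ ^ (-(3 / 2) : ℝ) = 2 ^ (3 / 2 : ℝ) / (1 - σ) ^ (3 / 2 : ℝ) := by
      rw [hτ, Real.rpow_neg (by positivity), Real.div_rpow hs.le (by norm_num), inv_div]
    rw [e1, ← mul_div_assoc, div_le_iff₀ hs0]
    have := (le_max_left (K' * 2 ^ (3 / 2 : ℝ)) 2).trans hK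
    linarith)
  have h2 := hM 1 (g - 1) _ a0 (Or.inr rfl) hT z (by unfold ht; rw [one_mul]; linarith) (ρ + 5)
    (R - 5) (by omega) (by omega) _ (Finset.Subset.refl _)
  refine h2.trans ?_
  have h3 : (((ρ + 5 : ℤ) : ℝ) / ((R - 5 : ℤ) : ℝ)) ≤ 7 * ((ρ : ℝ) / R) := by
    push_cast
    have h4 : (ρ : ℝ) + 11 ≤ R := by exact_mod_cast hbig
    rw [← mul_div_assoc, div_le_div_iff₀ (by linarith) (by linarith)]
    nlinarith
  have h4 : (((ρ + 5 : ℤ) : ℝ) / ((R - 5 : ℤ) : ℝ)) ^ (1 + α) ≤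
      7 ^ (1 + α) * ((ρ : ℝ) / R) ^ (1 + α) := by
    rw [← Real.mul_rpow (by norm_num) hx0.le]
    refine Real.rpow_le_rpow ?_ h3 (by linarith)
    push_cast
    have h4 : (ρ : ℝ) + 11 ≤ R := by exact_mod_cast hbig
    exact div_nonneg (by linarith) (by linarith)
  have h5 := mul_le_mul_of_nonneg_left h4 hC.le
  have h6 : 0 ≤ 7 ^ (1 + α) * ((ρ : ℝ) / R) ^ (1 + α) := by positivity
  nlinarith

/-! ### symmetries -/

lemma AS_X {l : ℤ × ℤ} : l ∈ AS e g w ρ R ↔ (syX 0).G' l ∈ AD e g (-w.1, w.2) ρ R := by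
  rw [mem_AS, mem_AD]
  unfold BR
  rw [mem_Bx, mem_Bx, mem_Bx, mem_Bx]
  simp only [syX, mul_zero, zero_sub, sub_neg_eq_add]
  have e2 : l.2 + l.1 = l.1 + l.2 := by ring
  rw [e2]
  constructor
  · rintro ⟨⟨h1, h2⟩, h3⟩
    exact ⟨⟨by omega, by omega⟩, h3⟩
  · rintro ⟨⟨h1, h2⟩, h3⟩
    exact ⟨⟨by omega, by omega⟩, h3⟩

lemma AD_X {l : ℤ × ℤ} : l ∈ AD e g w ρ R ↔ (syX 0).G' l ∈ AS e g (-w.1, w.2) ρ R := by
  rw [mem_AS, mem_AD]
  unfold BR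
  rw [mem_Bx, mem_Bx, mem_Bx, mem_Bx]
  simp only [syX, mul_zero, zero_sub, sub_neg_eq_add]
  have e1 : -l.1 + l.2 = l.2 - l.1 := by ring
  rw [e1]
  constructor
  · rintro ⟨⟨h1, h2⟩, h3⟩
    exact ⟨⟨by omega, by omega⟩, h3⟩
  · rintro ⟨⟨h1, h2⟩, h3⟩
    exact ⟨⟨by omega, by omega⟩, h3⟩

lemma AD_Y {l : ℤ × ℤ} : l ∈ AD (-e) g w ρ R ↔ (syY 0).G' l ∈ AS e g (w.1, -w.2) ρ R := by
  rw [mem_AS, mem_AD]
  unfold BR
  rw [mem_Bx, mem_Bx, mem_Bx, mem_Bx]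
  simp only [syY, mul_zero, zero_sub]
  have e1 : e * (l.1 + -l.2) = -e * (l.2 - l.1) := by ring
  rw [e1]
  constructor
  · rintro ⟨⟨h1, h2⟩, h3⟩
    exact ⟨⟨by omega, by omega⟩, h3⟩
  · rintro ⟨⟨h1, h2⟩, h3⟩
    exact ⟨⟨by omega, by omega⟩, h3⟩

variable {C α K : ℝ}

theorem FS_FD_X (h : FS C α K e) : FD C α K e := by
  intro g w σ a0 hw1 hσ0 hσ1 hK ρ R hρ hR E V hE hV
  rw [bt_sym (syX 0) near_X far_X (fun l => AD_X) E V]
  refine h g (-w.1, w.2) σ a0 ?_ hσ0 hσ1 hK ρ R hρ hR _ _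
    (sub_image (syX 0) (fun l => AD_X) hE) ?_
  · have e1 : e * (-w.1 + w.2) = e * (w.2 - w.1) := by ring
    simp only
    rw [e1]; exact hw1
  · intro y hy hy1
    refine mem_image.2 ⟨(syX 0).g y, hV _ ?_ ?_, (syX 0).g'g y⟩
    · rw [inR_iff] at hy ⊢
      simp only [syX, zero_sub] at hy ⊢
      omega
    · simp only [syX, zero_sub]
      rw [← hy1]
      ring

theorem FD_FS_X (h : FD C α K e) : FS C α K e := by
  intro g w σ a0 hw1 hσ0 hσ1 hK ρ R hρ hR E V hE hV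
  rw [bt_sym (syX 0) near_X far_X (fun l => AS_X) E V]
  refine h g (-w.1, w.2) σ a0 ?_ hσ0 hσ1 hK ρ R hρ hR _ _
    (sub_image (syX 0) (fun l => AS_X) hE) ?_
  · have e1 : e * (w.2 - -w.1) = e * (w.1 + w.2) := by ring
    simp only
    rw [e1]; exact hw1
  · intro y hy hy1
    refine mem_image.2 ⟨(syX 0).g y, hV _ ?_ ?_, (syX 0).g'g y⟩
    · rw [inR_iff] at hy ⊢
      simp only [syX, zero_sub] at hy ⊢
      omega
    · simp only [syX, zero_sub]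
      rw [← hy1]
      ring

theorem FS_FD_Y (h : FS C α K e) : FD C α K (-e) := by
  intro g w σ a0 hw1 hσ0 hσ1 hK ρ R hρ hR E V hE hV
  rw [bt_sym (syY 0) near_Y far_Y (fun l => AD_Y) E V]
  refine h g (w.1, -w.2) σ a0 ?_ hσ0 hσ1 hK ρ R hρ hR _ _
    (sub_image (syY 0) (fun l => AD_Y) hE) ?_
  · have e1 : e * (w.1 + -w.2) = -e * (w.2 - w.1) := by ring
    simp only
    rw [e1]; exact hw1
  · intro y hy hy1
    refine mem_image.2 ⟨(syY 0).g y, hV _ ?_ ?_, (syY 0).g'g y⟩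
    · rw [inR_iff] at hy ⊢
      simp only [syY, zero_sub] at hy ⊢
      omega
    · simp only [syY, zero_sub]
      rw [← hy1]
      ring

/-- **crossing clusters without marked wall vertex at a flat wall**, all four walls -/
theorem bits_flat : ∃ C α K : ℝ, 0 < C ∧ 0 < α ∧ 2 ≤ K ∧ ∀ e : ℤ, (e = 1 ∨ e = -1) →
    FS C α K e ∧ FD C α K e := by
  obtain ⟨C, α, K, hC, hα, hK, h⟩ := flat_base
  have h1 : FD C α K 1 := FS_FD_X h
  have h1' : FD C α K (-1) := FS_FD_Y h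
  refine ⟨C, α, K, hC, hα, hK, fun e he => ?_⟩
  rcases he with rfl | rfl
  · exact ⟨h, h1⟩
  · exact ⟨FD_FS_X h1', h1'⟩

end Pool.Agent.H23.TC
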