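import Mathlib
import Pool.Agent.H23.TC.Flat

set_option autoImplicit false
open Finset

/-!
# Reflex corner with marked wall vertices: deterministic part, monotonicity, submultiplicativity
-/

namespace Pool.Agent.H23.TC

open Pool.Agent.H75.Perc Pool.Agent.H75.TwoArm Pool.Agent.H75.Four Pool.Agent.H49.Perc
open Pool.Agent.H99.NC Pool.Agent.H60.Q1 Pool.Agent.H60.Q1.Corn
open Pool.Agent.H20.Q1 (BR_mono BR_ends BR_of_ends last_exit)

variable {e f g g1 g2 : ℤ} {z w : ℤ × ℤ} {ρ R a0 m R' s : ℤ} {E E' V V' a ω T η : Finset (ℤ × ℤ)}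
  {σ τ : ℝ}

/-! ### general facts on `bt` -/

lemma bt_nonneg (h0 : 0 ≤ σ) (h1 : σ ≤ 1) : 0 ≤ bt σ E V a w ρ R := by
  have hq : Pb (fun _ : ℤ × ℤ => 1 - σ) := Pb.const (by linarith) (by linarith)
  unfold bt
  exact Ex_nonneg hf_Pb fun ω _ => PrP_nonneg hq V (fun T => UT a w ρ R ω T)

lemma bt_E (hE : a ⊆ E) : bt σ E V a w ρ R = bt σ a V a w ρ R := by
  unfold bt
  rw [← Ex_restrict Corn.hf hE]
  refine Ex_congr fun ω _ => ?_
  refine Ex_congr fun T _ => ind_congr ?_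
  unfold UT
  rw [inter_assoc, inter_self]

lemma bt_V (h0 : 0 ≤ σ) (h1 : σ ≤ 1) (hV : V' ⊆ V) : bt σ E V a w ρ R ≤ bt σ E V' a w ρ R := by
  have hq : Pb (fun _ : ℤ × ℤ => 1 - σ) := Pb.const (by linarith) (by linarith)
  unfold bt
  refine Ex_mono hf_Pb fun ω _ => ?_
  rw [← Ex_restrict (fun _ => 1 - σ) hV]
  exact Ex_mono hq fun T _ => UT_anti inter_subset_left

/-! ### the reflex corner -/

/-- labels of the reflex domain -/
def dR (e f g1 g2 : ℤ) (l : ℤ × ℤ) : Prop := 2 * g1 ≤ e * (l.1 + l.2) ∨ 2 * g2 ≤ f * (l.2 - l.1)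

/-- labels of the annulus -/
noncomputable def AR (e f g1 g2 : ℤ) (w : ℤ × ℤ) (ρ R : ℤ) : Finset (ℤ × ℤ) :=
  AG (fun _ => dR e f g1 g2) w ρ R

lemma mem_AR {l : ℤ × ℤ} : l ∈ AR e f g1 g2 w ρ R ↔
    (l ∈ BR w R ∧ l ∉ BR w ρ) ∧ dR e f g1 g2 l := mem_AG

/-- wall vertices -/
def WV (e f g1 g2 : ℤ) (y : ℤ × ℤ) : Prop :=
  (e * (y.1 + y.2) = g1 ∧ f * (y.2 - y.1) < g2) ∨ (f * (y.2 - y.1) = g2 ∧ e * (y.1 + y.2) < g1)

open Classical in
/-- wall vertices of the annulus -/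
noncomputable def Vw (e f g1 g2 : ℤ) (w : ℤ × ℤ) (ρ R : ℤ) : Finset (ℤ × ℤ) :=
  (Icc (w.1 - R) (w.1 + R) ×ˢ Icc (w.2 - R) (w.2 + R)).filter
    fun y => ¬ inR w ρ y ∧ WV e f g1 g2 y

lemma mem_Vw {y : ℤ × ℤ} : y ∈ Vw e f g1 g2 w ρ R ↔ inR w R y ∧ ¬ inR w ρ y ∧ WV e f g1 g2 y := by
  classical
  unfold Vw
  rw [mem_filter, mem_product, mem_Icc, mem_Icc]
  exact Iff.rfl

/-- the probability -/
noncomputable def ur (σ : ℝ) (e f g1 g2 : ℤ) (w : ℤ × ℤ) (ρ R : ℤ) : ℝ :=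
  bt σ (AR e f g1 g2 w ρ R) (Vw e f g1 g2 w ρ R) (AR e f g1 g2 w ρ R) w ρ R

lemma bt_le_ur (h0 : 0 ≤ σ) (h1 : σ ≤ 1) (hE : AR e f g1 g2 w ρ R ⊆ E)
    (hV : ∀ y, inR w R y → ¬ inR w ρ y → WV e f g1 g2 y → y ∈ V) :
    bt σ E V (AR e f g1 g2 w ρ R) w ρ R ≤ ur σ e f g1 g2 w ρ R := by
  rw [bt_E hE]
  refine bt_V h0 h1 fun y hy => ?_
  obtain ⟨h2, h3, h4⟩ := mem_Vw.1 hy
  exact hV y h2 h3 h4

/-- inner and outer annulus -/
lemma UT_split (hρs : ρ < s) (hsR : s < R)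
    (h : UT (AR e f g1 g2 w ρ R) w ρ R ω T) :
    UT (AR e f g1 g2 w ρ s) w ρ s ω T ∧ UT (AR e f g1 g2 w s R) w s R ω T := by
  obtain ⟨u, v, hu, hv, huv, hun⟩ := h
  unfold Near at hu
  unfold Far at hv
  constructor
  · have hus : |u.1 - w.1| < s ∧ |u.2 - w.2| < s := ⟨by omega, by omega⟩
    obtain ⟨v', hv', h2⟩ := open_exit huv hus (by omega)
    have hsub : ω ∩ AR e f g1 g2 w ρ R ∩ Bx (w.1 - s) (w.1 + s) (w.2 - s) (w.2 + s) ⊆
        ω ∩ AR e f g1 g2 w ρ s := by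
      intro l hl
      obtain ⟨g1', g2'⟩ := mem_inter.1 hl
      obtain ⟨g3, g4⟩ := mem_inter.1 g1'
      have g5 := mem_AR.1 g4
      exact mem_inter.2 ⟨g3, mem_AR.2 ⟨⟨g2', g5.1.2⟩, g5.2⟩⟩
    have hsub2 : ω ∩ AR e f g1 g2 w ρ s ⊆ ω ∩ AR e f g1 g2 w ρ R := by
      refine inter_subset_inter_left fun l hl => ?_
      have g5 := mem_AR.1 hl
      exact mem_AR.2 ⟨⟨BR_mono hsR.le g5.1.1, g5.1.2⟩, g5.2⟩
    exact ⟨u, v', hu, hv', h2.mono hsub, fun y hy h3 => hun y hy (h3.mono hsub2)⟩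
  · have hus : inR w s u := by
      rw [inR_iff]
      rw [abs_le, abs_le] at hu
      omega
    have hvs : ¬ inR w s v := by
      rw [inR_iff]
      rw [le_abs, le_abs] at hv
      omega
    obtain ⟨u', hu', h2⟩ := last_exit huv hus hvs
    have hsub : (ω ∩ AR e f g1 g2 w ρ R) \ BR w s ⊆ ω ∩ AR e f g1 g2 w s R := by
      intro l hl
      obtain ⟨g1', g2'⟩ := mem_sdiff.1 hl
      obtain ⟨g3, g4⟩ := mem_inter.1 g1'
      have g5 := mem_AR.1 g4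
      exact mem_inter.2 ⟨g3, mem_AR.2 ⟨⟨g5.1.1, g2'⟩, g5.2⟩⟩
    have hsub2 : ω ∩ AR e f g1 g2 w s R ⊆ ω ∩ AR e f g1 g2 w ρ R := by
      refine inter_subset_inter_left fun l hl => ?_
      have g5 := mem_AR.1 hl
      exact mem_AR.2 ⟨⟨g5.1.1, fun h => g5.1.2 (BR_mono hρs.le h)⟩, g5.2⟩
    refine ⟨u', v, ?_, hv, h2.mono hsub, fun y hy h3 => hun y hy ?_⟩
    · unfold Near
      rw [inR_iff] at hu'
      rw [abs_le, abs_le]
      omega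
    · exact (huv.trans (h2.mono sdiff_subset).symm).trans (h3.mono hsub2)

/-- **submultiplicativity** -/
theorem ur_mul (h0 : 0 ≤ σ) (h1 : σ ≤ 1) (hρs : ρ < s) (hsR : s < R) :
    ur σ e f g1 g2 w ρ R ≤ ur σ e f g1 g2 w ρ s * ur σ e f g1 g2 w s R := by
  have hq : Pb (fun _ : ℤ × ℤ => 1 - σ) := Pb.const (by linarith) (by linarith)
  set A := AR e f g1 g2 w ρ R with hA
  set A1 := AR e f g1 g2 w ρ s with hA1
  set A2 := AR e f g1 g2 w s R with hA2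
  set W := Vw e f g1 g2 w ρ R with hW
  set W1 := Vw e f g1 g2 w ρ s with hW1
  set W2 := Vw e f g1 g2 w s R with hW2
  have a1 : A1 ⊆ A := fun l hl => by
    have g5 := mem_AR.1 hl
    exact mem_AR.2 ⟨⟨BR_mono hsR.le g5.1.1, g5.1.2⟩, g5.2⟩
  have a2 : A2 ⊆ A := fun l hl => by
    have g5 := mem_AR.1 hl
    exact mem_AR.2 ⟨⟨g5.1.1, fun h => g5.1.2 (BR_mono hρs.le h)⟩, g5.2⟩
  have a3 : Disjoint A1 A2 := by
    rw [disjoint_left]
    intro l h2 h3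
    exact (mem_AR.1 h3).1.2 (mem_AR.1 h2).1.1
  have w1 : W1 ⊆ W := fun y hy => by
    obtain ⟨g3, g4, g5⟩ := mem_Vw.1 hy
    refine mem_Vw.2 ⟨?_, g4, g5⟩
    rw [inR_iff] at g3 ⊢
    omega
  have w2 : W2 ⊆ W := fun y hy => by
    obtain ⟨g3, g4, g5⟩ := mem_Vw.1 hy
    refine mem_Vw.2 ⟨g3, fun h => g4 ?_, g5⟩
    rw [inR_iff] at h ⊢
    omega
  have w3 : Disjoint W1 W2 := by
    rw [disjoint_left]
    intro y h2 h3
    exact (mem_Vw.1 h3).2.1 (mem_Vw.1 h2).1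
  set F1 : Finset (ℤ × ℤ) → ℝ := fun ω => Ex (fun _ => 1 - σ) W1 (fun T => ind (UT A1 w ρ s ω T))
    with hF1
  set F2 : Finset (ℤ × ℤ) → ℝ := fun ω => Ex (fun _ => 1 - σ) W2 (fun T => ind (UT A2 w s R ω T))
    with hF2
  have key : ∀ ω, Ex (fun _ => 1 - σ) W (fun T => ind (UT A w ρ R ω T)) ≤
      F1 (ω ∩ A1) * F2 (ω ∩ A2) := by
    intro ω
    rw [hF1, hF2]
    simp only
    rw [← Ex_indep (fun _ => 1 - σ) w1 w2 w3]
    refine Ex_mono hq fun T _ => ?_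
    by_cases h : UT A w ρ R ω T
    · obtain ⟨g3, g4⟩ := UT_split hρs hsR h
      have g5 : UT A1 w ρ s (ω ∩ A1) (T ∩ W1) := by
        obtain ⟨u, v, k1, k2, k3, k4⟩ := g3
        unfold UT
        rw [inter_assoc, inter_self]
        exact ⟨u, v, k1, k2, k3, fun y hy => k4 y (mem_inter.1 hy).1⟩
      have g6 : UT A2 w s R (ω ∩ A2) (T ∩ W2) := by
        obtain ⟨u, v, k1, k2, k3, k4⟩ := g4
        unfold UT
        rw [inter_assoc, inter_self]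
        exact ⟨u, v, k1, k2, k3, fun y hy => k4 y (mem_inter.1 hy).1⟩
      rw [ind_true h, ind_true g5, ind_true g6]
      norm_num
    · rw [ind_false h]
      exact mul_nonneg (ind_nonneg _) (ind_nonneg _)
  unfold ur
  unfold bt
  refine (Ex_mono hf_Pb (fun ω _ => key ω)).trans (le_of_eq ?_)
  exact Ex_indep Corn.hf a1 a2 a3 F1 F2

lemma ur_nonneg (h0 : 0 ≤ σ) (h1 : σ ≤ 1) : 0 ≤ ur σ e f g1 g2 w ρ R := bt_nonneg h0 h1

lemma ur_le_one (h0 : 0 ≤ σ) (h1 : σ ≤ 1) : ur σ e f g1 g2 w ρ R ≤ 1 := bt_le_one h0 h1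

/-! ### no wall vertex -/

/-- a crossing cluster without wall vertex -/
def BE (e f g1 g2 : ℤ) (w : ℤ × ℤ) (ρ R : ℤ) (ω : Finset (ℤ × ℤ)) : Prop :=
  ∃ u v, Near w ρ u ∧ Far w R v ∧ Co (ω ∩ AR e f g1 g2 w ρ R) u v ∧
    ∀ y, Co (ω ∩ AR e f g1 g2 w ρ R) u y → ¬ WV e f g1 g2 y

lemma sgn_mul {x : ℤ} (h : e = 1 ∨ e = -1) : (e = 1 ∧ e * x = x) ∨ (e = -1 ∧ e * x = -x) := by
  rcases h with rfl | rfl
  · left; exact ⟨rfl, one_mul _⟩
  · right; exact ⟨rfl, by ring⟩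

/-- the corner of the model -/
lemma exists_w (he : e = 1 ∨ e = -1) (hf : f = 1 ∨ f = -1) (hw1 : |e * (w.1 + w.2) - g1| ≤ 3)
    (hw2 : |f * (w.2 - w.1) - g2| ≤ 3) : ∃ w' : ℤ × ℤ, (|w.1 - w'.1| ≤ 4 ∧ |w.2 - w'.2| ≤ 4) ∧
    (e * (w'.1 + w'.2) = g1 ∨ e * (w'.1 + w'.2) = g1 - 1) ∧ f * (w'.2 - w'.1) = g2 := by
  rw [abs_le] at hw1 hw2
  rcases he with rfl | rfl <;> rcases hf with rfl | rfl
  · refine ⟨((g1 - (g1 - g2) % 2 - g2) / 2, (g1 - (g1 - g2) % 2 + g2) / 2), ?_, ?_, ?_⟩ <;>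
      simp only [abs_le] <;> omega
  · refine ⟨((g1 - (g1 - g2) % 2 + g2) / 2, (g1 - (g1 - g2) % 2 - g2) / 2), ?_, ?_, ?_⟩ <;>
      simp only [abs_le] <;> omega
  · refine ⟨((-(g1 - (g1 - g2) % 2) - g2) / 2, (-(g1 - (g1 - g2) % 2) + g2) / 2), ?_, ?_, ?_⟩ <;>
      simp only [abs_le] <;> omega
  · refine ⟨((-(g1 - (g1 - g2) % 2) + g2) / 2, (-(g1 - (g1 - g2) % 2) - g2) / 2), ?_, ?_, ?_⟩ <;>
      simp only [abs_le] <;> omega

/-- the model -/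
lemma BE_model {P dm : ℤ × ℤ → ℤ × ℤ → Prop} {w' : ℤ × ℤ} (he : e = 1 ∨ e = -1)
    (hf : f = 1 ∨ f = -1) (hw1 : |e * (w.1 + w.2) - g1| ≤ 3)
    (hw2 : |f * (w.2 - w.1) - g2| ≤ 3) (hw' : |w.1 - w'.1| ≤ 4 ∧ |w.2 - w'.2| ≤ 4) (hρ : 10 ≤ ρ)
    (hR : ρ + 11 ≤ R)
    (hP : ∀ v : ℤ × ℤ, (g1 < e * (v.1 + v.2) ∨ g2 < f * (v.2 - v.1)) → P w' v)
    (hD : ∀ l : ℤ × ℤ, dR e f g1 g2 l → dm w' l) (h : BE e f g1 g2 w ρ R ω) :
    UG P dm w' (ρ + 5) (R - 5) ω := by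
  obtain ⟨u, v, hu, hv, huv, hun⟩ := h
  set a := AR e f g1 g2 w ρ R with ha
  have hu0 := hu
  have hv0 := hv
  unfold Near at hu0
  unfold Far at hv0
  rw [abs_le] at hw1 hw2
  rw [abs_le, abs_le] at hu0 hw'
  rw [le_abs, le_abs] at hv0
  have hne : u ≠ v := by
    rintro rfl
    omega
  have hin : ∀ y, Co (ω ∩ a) u y → (g1 < e * (y.1 + y.2) ∨ g2 < f * (y.2 - y.1)) := by
    intro y hy
    obtain ⟨p, hp1, hp2⟩ := exists_label hy huv hne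
    have hp3 := mem_AR.1 (mem_inter.1 hp2).2
    have hp4 := unit_cases hp1
    have hp5 := hun y hy
    unfold dR BR at hp3
    rw [mem_Bx, mem_Bx] at hp3
    unfold WV at hp5
    simp only [Prod.fst_add, Prod.snd_add] at hp3
    rcases he with rfl | rfl <;> rcases hf with rfl | rfl <;> omega
  refine UG_intro (a := a) (u := u) (v := v) (by omega) ?_ ?_ huv ?_ ?_ ?_
  · unfold Near
    rw [abs_le, abs_le]
    omega
  · unfold Far
    rw [le_abs, le_abs]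
    omega
  · intro y hy _
    exact hP y (hin y hy)
  · intro y r hyr hy hl
    have h1 := hin y hy
    have h2 := unit_cases hyr
    rw [mem_AG] at hl
    unfold BR at hl
    rw [mem_Bx, mem_Bx] at hl
    rw [ha, mem_AR]
    unfold dR BR
    rw [mem_Bx, mem_Bx]
    simp only [Prod.fst_add, Prod.snd_add] at hl ⊢
    rcases he with rfl | rfl <;> rcases hf with rfl | rfl <;> omega
  · intro l hl _ _
    exact hD l (mem_AR.1 hl).2

/-- the natural part -/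
theorem BE_le {C1 α1 : ℝ} (hC : ∀ e : ℤ, (e = 1 ∨ e = -1) → ∀ (w : ℤ × ℤ) (ρ R : ℤ), 1 ≤ ρ →
    ρ ≤ R → ug (PRv e) (dRv e) w ρ R ≤ C1 * ((ρ : ℝ) / R) ^ (1 + α1) ∧
    ug (PRh e) (dRh e) w ρ R ≤ C1 * ((ρ : ℝ) / R) ^ (1 + α1)) (he : e = 1 ∨ e = -1)
    (hf : f = 1 ∨ f = -1) (hw1 : |e * (w.1 + w.2) - g1| ≤ 3)
    (hw2 : |f * (w.2 - w.1) - g2| ≤ 3) (hρ : 10 ≤ ρ) (hR : ρ + 11 ≤ R)
    (hE : AR e f g1 g2 w ρ R ⊆ E) :
    PrP Corn.hf E (BE e f g1 g2 w ρ R) ≤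
      C1 * (((ρ + 5 : ℤ) : ℝ) / ((R - 5 : ℤ) : ℝ)) ^ (1 + α1) := by
  obtain ⟨w', hw', hs1, hs2⟩ := exists_w he hf hw1 hw2
  have main : ∀ P dm : ℤ × ℤ → ℤ × ℤ → Prop,
      (∀ v : ℤ × ℤ, (g1 < e * (v.1 + v.2) ∨ g2 < f * (v.2 - v.1)) → P w' v) →
      (∀ l : ℤ × ℤ, dR e f g1 g2 l → dm w' l) →
      PrP Corn.hf E (BE e f g1 g2 w ρ R) ≤ ug P dm w' (ρ + 5) (R - 5) := by
    intro P dm hP hD
    have hloc : ∀ ω : Finset (ℤ × ℤ), BE e f g1 g2 w ρ R ω ↔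
        BE e f g1 g2 w ρ R (ω ∩ AR e f g1 g2 w ρ R) := by
      intro ω
      unfold BE
      rw [inter_assoc, inter_self]
    have e1 : PrP Corn.hf E (BE e f g1 g2 w ρ R) =
        PrP Corn.hf (AR e f g1 g2 w ρ R) (BE e f g1 g2 w ρ R) := PrP_local hE fun ω _ => hloc ω
    have e3 : PrP Corn.hf (AR e f g1 g2 w ρ R ∪ AG dm w' (ρ + 5) (R - 5)) (BE e f g1 g2 w ρ R) =
        PrP Corn.hf (AR e f g1 g2 w ρ R) (BE e f g1 g2 w ρ R) :=
      PrP_local subset_union_left fun ω _ => hloc ω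
    have e4 : PrP Corn.hf (AR e f g1 g2 w ρ R ∪ AG dm w' (ρ + 5) (R - 5))
        (UG P dm w' (ρ + 5) (R - 5)) = ug P dm w' (ρ + 5) (R - 5) := PrP_UG subset_union_right
    rw [e1, ← e3, ← e4]
    exact PrP_mono hf_Pb fun ω _ h => BE_model he hf hw1 hw2 hw' hρ hR hP hD h
  rcases he with rfl | rfl <;> rcases hf with rfl | rfl
  · refine (main (PRv 1) (dRv 1) ?_ ?_).trans (hC 1 (Or.inl rfl) w' _ _ (by omega) (by omega)).1
    · intro v hv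
      unfold PRv
      rcases abs_cases (v.1 - w'.1) with h | h <;> omega
    · intro l hl
      unfold dR at hl
      unfold dRv
      rcases abs_cases (l.1 - 2 * w'.1) with h | h <;> omega
  · refine (main (PRh 1) (dRh 1) ?_ ?_).trans (hC 1 (Or.inl rfl) w' _ _ (by omega) (by omega)).2
    · intro v hv
      unfold PRh
      rcases abs_cases (v.2 - w'.2) with h | h <;> omega
    · intro l hl
      unfold dR at hl
      unfold dRh
      rcases abs_cases (l.2 - 2 * w'.2) with h | h <;> omega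
  · refine (main (PRh (-1)) (dRh (-1)) ?_ ?_).trans
      (hC (-1) (Or.inr rfl) w' _ _ (by omega) (by omega)).2
    · intro v hv
      unfold PRh
      rcases abs_cases (v.2 - w'.2) with h | h <;> omega
    · intro l hl
      unfold dR at hl
      unfold dRh
      rcases abs_cases (l.2 - 2 * w'.2) with h | h <;> omega
  · refine (main (PRv (-1)) (dRv (-1)) ?_ ?_).trans
      (hC (-1) (Or.inr rfl) w' _ _ (by omega) (by omega)).1
    · intro v hv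
      unfold PRv
      rcases abs_cases (v.1 - w'.1) with h | h <;> omega
    · intro l hl
      unfold dR at hl
      unfold dRv
      rcases abs_cases (l.1 - 2 * w'.1) with h | h <;> omega

end Pool.Agent.H23.TC
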