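import Mathlib
import Pool.Agent.H23.TC.Rfx

set_option autoImplicit false
open Finset

/-!
# Reflex corner with marked wall vertices: one block
-/

namespace Pool.Agent.H23.TC

open Pool.Agent.H75.Perc Pool.Agent.H75.TwoArm Pool.Agent.H75.Four Pool.Agent.H49.Perc
open Pool.Agent.H99.NC Pool.Agent.H60.Q1 Pool.Agent.H60.Q1.Corn
open Pool.Agent.H20.Q1 (BR_mono BR_ends BR_of_ends last_exit)

variable {e f g g1 g2 : ℤ} {z w : ℤ × ℤ} {ρ R a0 m R' s : ℤ} {E E' V V' a ω T η : Finset (ℤ × ℤ)}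
  {σ τ : ℝ}

/-- windows on the first wall -/
def w1 (w : ℤ × ℤ) (t : ℤ) : ℤ × ℤ := (w.1 + t, w.2 - t)

/-- windows on the second wall -/
def w2 (w : ℤ × ℤ) (t : ℤ) : ℤ × ℤ := (w.1 + t, w.2 + t)

/-- the part of the cluster seen from a window -/
lemma window {A b : Finset (ℤ × ℤ)} {x u' v' y : ℤ × ℤ} (hbA : b ⊆ A)
    (hcl : ∀ y ∈ T, ¬ Co (ω ∩ A) u' y) (c3 : Co (ω ∩ b) u' v') (hy : Co (ω ∩ b) u' y)
    (hm : 3 * a0 < m) (hyx : |y.1 - x.1| ≤ 3 * a0 ∧ |y.2 - x.2| ≤ 3 * a0)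
    (hfar : Far x m v' ∨ Far x m u')
    (hB : ∀ l ∈ b, l ∈ BR x m → l ∉ BR x (3 * a0) → l ∈ η) (hηA : η ⊆ A)
    : UT η x (3 * a0) m ω T := by
  obtain ⟨p', hp', hyp⟩ : ∃ p', Far x m p' ∧ Co (ω ∩ b) y p' := by
    rcases hfar with h | h
    · exact ⟨v', h, hy.symm.trans c3⟩
    · exact ⟨u', h, hy.symm⟩
  have hp'0 := hp'
  unfold Far at hp'0
  rw [abs_le, abs_le] at hyx
  obtain ⟨v2, hv2, h6⟩ := open_exit (o := x) (M := m) hyp (by rw [abs_lt, abs_lt]; omega) hp'0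
  have hv20 := hv2
  rw [le_abs, le_abs] at hv20
  obtain ⟨u2, hu2, h7⟩ := last_exit (w := x) (c := 3 * a0) h6 (by rw [inR_iff]; omega)
    (by rw [inR_iff]; omega)
  rw [inR_iff] at hu2
  have c4 : Co (ω ∩ η) u2 v2 := by
    refine h7.mono fun l hl => ?_
    obtain ⟨g1, g2⟩ := mem_sdiff.1 hl
    obtain ⟨g3, g4⟩ := mem_inter.1 g1
    obtain ⟨g5, g6⟩ := mem_inter.1 g3
    exact mem_inter.2 ⟨g5, hB l g6 g4 g2⟩
  have hbA' : ω ∩ b ⊆ ω ∩ A := inter_subset_inter_left hbA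
  have cuu : Co (ω ∩ A) u' u2 := by
    have e2 : Co (ω ∩ A) y v2 := h6.mono (inter_subset_left.trans hbA')
    have e3 : Co (ω ∩ A) u2 v2 :=
      h7.mono ((sdiff_subset.trans inter_subset_left).trans hbA')
    exact ((hy.mono hbA').trans e2).trans e3.symm
  refine ⟨u2, v2, ?_, hv2, c4, fun t ht h8 => ?_⟩
  · unfold Near
    rw [abs_le, abs_le]
    omega
  · exact hcl t ht (cuu.trans (h8.mono (inter_subset_inter_left hηA)))

theorem rfx_split (he : e = 1 ∨ e = -1) (hf : f = 1 ∨ f = -1)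
    (hw1 : |e * (w.1 + w.2) - g1| ≤ 3) (hw2 : |f * (w.2 - w.1) - g2| ≤ 3) (ha : 2 ≤ a0)
    (hm : 3 * a0 < m) (hρ : 4 * m ≤ ρ) (hR' : 3 * ρ ≤ R') (hR : 2 * R' ≤ R)
    (h : UT (AR e f g1 g2 w ρ R) w ρ R ω T) :
    BE e f g1 g2 w (2 * ρ) R' ω ∨
      (∃ i ∈ (Icc (-(R' / a0 + 1)) (R' / a0 + 1)).filter (fun i => ρ + m < f * (i * a0)),
        UT (AS e g1 (w1 w (i * a0)) (3 * a0) m) (w1 w (i * a0)) (3 * a0) m ω T) ∨
      (∃ i ∈ (Icc (-(R' / a0 + 1)) (R' / a0 + 1)).filter (fun i => ρ + m < -(e * (i * a0))),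
        UT (AD f g2 (w2 w (i * a0)) (3 * a0) m) (w2 w (i * a0)) (3 * a0) m ω T) := by
  obtain ⟨u, v, hu, hv, huv, hun⟩ := h
  rw [abs_le] at hw1 hw2
  set a := AR e f g1 g2 w ρ R with hadef
  have hu0 := hu
  have hv0 := hv
  unfold Near at hu0
  unfold Far at hv0
  rw [abs_le, abs_le] at hu0
  rw [le_abs, le_abs] at hv0
  obtain ⟨v', hv', h2⟩ := open_exit (o := w) (M := R') huv (by rw [abs_lt, abs_lt]; omega)
    (by rw [le_abs, le_abs]; omega)
  have hv'0 := hv'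
  rw [le_abs, le_abs] at hv'0
  obtain ⟨u', hu', h3⟩ := last_exit (w := w) (c := 2 * ρ) h2 (by rw [inR_iff]; omega)
    (by rw [inR_iff]; omega)
  set b := AR e f g1 g2 w (2 * ρ) R' with hbdef
  have hba : b ⊆ a := by
    intro l hl
    have g5 := mem_AR.1 hl
    exact mem_AR.2 ⟨⟨BR_mono (by omega) g5.1.1, fun h => g5.1.2 (BR_mono (by omega) h)⟩, g5.2⟩
  have hsub : (ω ∩ a ∩ Bx (w.1 - R') (w.1 + R') (w.2 - R') (w.2 + R')) \ BR w (2 * ρ) ⊆ ω ∩ b := by
    intro l hl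
    obtain ⟨g1', g2'⟩ := mem_sdiff.1 hl
    obtain ⟨g3, g4⟩ := mem_inter.1 g1'
    obtain ⟨g5, g6⟩ := mem_inter.1 g3
    exact mem_inter.2 ⟨g5, mem_AR.2 ⟨⟨g4, g2'⟩, (mem_AR.1 g6).2⟩⟩
  have c3 : Co (ω ∩ b) u' v' := h3.mono hsub
  have cu : Co (ω ∩ a) u u' := (h2.mono inter_subset_left).trans
    (h3.mono (sdiff_subset.trans inter_subset_left)).symm
  have hcl : ∀ y ∈ T, ¬ Co (ω ∩ a) u' y := fun y hy h => hun y hy (cu.trans h)
  have hu'0 := hu'
  rw [inR_iff] at hu'0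
  have hne : u' ≠ v' := by
    rintro rfl
    omega
  by_cases hA : ∀ y, Co (ω ∩ b) u' y → ¬ WV e f g1 g2 y
  · left
    refine ⟨u', v', ?_, hv', c3, hA⟩
    unfold Near
    rw [abs_le, abs_le]
    omega
  · right
    push Not at hA
    obtain ⟨y, hy, hy1⟩ := hA
    obtain ⟨p, hp1, hp2⟩ := exists_label hy c3 hne
    have hp3 := (mem_AR.1 (mem_inter.1 hp2).2).1
    unfold BR at hp3
    rw [mem_Bx, mem_Bx] at hp3
    simp only [Prod.fst_add, Prod.snd_add] at hp3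
    have hp4 := unit_cases hp1
    obtain ⟨τ, hτ⟩ : ∃ τ : ℤ, τ = y.1 - w.1 := ⟨_, rfl⟩
    have ha0 : 0 < a0 := by omega
    obtain ⟨i, hi⟩ : ∃ i : ℤ, i = τ / a0 := ⟨_, rfl⟩
    have hi1 : i * a0 ≤ τ := by rw [hi]; exact Int.ediv_mul_le _ (by omega)
    have hi2 : τ < i * a0 + a0 := by
      have := Int.lt_ediv_add_one_mul_self τ ha0
      rw [hi]
      linarith
    have hτ1 : τ ≤ R' + 1 ∧ -(R' + 1) ≤ τ := by omega
    have hI1 : i ≤ R' / a0 + 1 := by
      have h6 : τ / a0 ≤ (R' + a0 * 1) / a0 := Int.ediv_le_ediv ha0 (by omega)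
      rw [Int.add_mul_ediv_left _ _ (by omega)] at h6
      omega
    have hτ2 : -R' ≤ τ := by omega
    have hI2 : -(R' / a0 + 1) ≤ i := by
      rw [hi]
      refine Int.le_ediv_of_mul_le ha0 ?_
      have h5 := Int.lt_ediv_add_one_mul_self R' ha0
      linarith
    obtain ⟨t, htt⟩ : ∃ t : ℤ, t = i * a0 := ⟨_, rfl⟩
    rcases hy1 with ⟨hy1, hy2⟩ | ⟨hy1, hy2⟩
    · left
      have hside : ρ + m < f * t := by
        rcases he with rfl | rfl <;> rcases hf with rfl | rfl <;> omega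
      refine ⟨i, mem_filter.2 ⟨mem_Icc.2 ⟨hI2, hI1⟩, by rw [← htt]; exact hside⟩, ?_⟩
      rw [← htt] at hi1 hi2 ⊢
      set x := w1 w t with hx
      have hx1 : x.1 = w.1 + t := rfl
      have hx2 : x.2 = w.2 - t := rfl
      refine window (A := a) (b := b) (u' := u') (v' := v') (y := y) hba hcl c3 hy hm ?_ ?_ ?_ ?_
      · rw [abs_le, abs_le]
        rcases he with rfl | rfl <;> omega
      · by_cases h5 : Far x m v'
        · exact Or.inl h5
        · right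
          unfold Far at h5 ⊢
          rw [le_abs, le_abs] at h5 ⊢
          rcases hf with rfl | rfl <;> omega
      · intro l hl h5 h6
        have h7 := (mem_AR.1 hl).2
        refine mem_AS.2 ⟨⟨h5, h6⟩, ?_⟩
        unfold BR at h5
        rw [mem_Bx] at h5
        unfold dR at h7
        rcases he with rfl | rfl <;> rcases hf with rfl | rfl <;> omega
      · intro l hl
        obtain ⟨⟨h5, h6⟩, h7⟩ := mem_AS.1 hl
        refine mem_AR.2 ⟨?_, Or.inl h7⟩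
        unfold BR at h5 ⊢
        rw [mem_Bx] at h5
        rw [mem_Bx, mem_Bx]
        rcases hf with rfl | rfl <;> omega
    · right
      have hside : ρ + m < -(e * t) := by
        rcases he with rfl | rfl <;> rcases hf with rfl | rfl <;> omega
      refine ⟨i, mem_filter.2 ⟨mem_Icc.2 ⟨hI2, hI1⟩, by rw [← htt]; exact hside⟩, ?_⟩
      rw [← htt] at hi1 hi2 ⊢
      set x := w2 w t with hx
      have hx1 : x.1 = w.1 + t := rfl
      have hx2 : x.2 = w.2 + t := rfl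
      refine window (A := a) (b := b) (u' := u') (v' := v') (y := y) hba hcl c3 hy hm ?_ ?_ ?_ ?_
      · rw [abs_le, abs_le]
        rcases hf with rfl | rfl <;> omega
      · by_cases h5 : Far x m v'
        · exact Or.inl h5
        · right
          unfold Far at h5 ⊢
          rw [le_abs, le_abs] at h5 ⊢
          rcases he with rfl | rfl <;> omega
      · intro l hl h5 h6
        have h7 := (mem_AR.1 hl).2
        refine mem_AD.2 ⟨⟨h5, h6⟩, ?_⟩
        unfold BR at h5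
        rw [mem_Bx] at h5
        unfold dR at h7
        rcases he with rfl | rfl <;> rcases hf with rfl | rfl <;> omega
      · intro l hl
        obtain ⟨⟨h5, h6⟩, h7⟩ := mem_AD.1 hl
        refine mem_AR.2 ⟨?_, Or.inr h7⟩
        unfold BR at h5 ⊢
        rw [mem_Bx] at h5
        rw [mem_Bx, mem_Bx]
        rcases he with rfl | rfl <;> omega

/-- **the block estimate** -/
theorem rfx_block (h0 : 0 ≤ σ) (h1 : σ < 1) {C1 α1 : ℝ}
    (hN : ∀ e : ℤ, (e = 1 ∨ e = -1) → ∀ (w : ℤ × ℤ) (ρ R : ℤ), 1 ≤ ρ →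
      ρ ≤ R → ug (PRv e) (dRv e) w ρ R ≤ C1 * ((ρ : ℝ) / R) ^ (1 + α1) ∧
      ug (PRh e) (dRh e) w ρ R ≤ C1 * ((ρ : ℝ) / R) ^ (1 + α1))
    {C3 α3 K : ℝ} (hK : 0 ≤ K) (hX : ∀ e : ℤ, (e = 1 ∨ e = -1) → FS C3 α3 K e ∧ FD C3 α3 K e)
    (ha0 : K ≤ (1 - σ) ^ (3 / 2 : ℝ) * a0) (he : e = 1 ∨ e = -1) (hf : f = 1 ∨ f = -1)
    (hw1 : |e * (w.1 + w.2) - g1| ≤ 3) (hw2 : |f * (w.2 - w.1) - g2| ≤ 3) (ha : 2 ≤ a0)
    (hm : 3 * a0 < m) (hρ : 4 * m ≤ ρ) (hR' : 3 * ρ ≤ R') (hR : 2 * R' ≤ R) :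
    ur σ e f g1 g2 w ρ R ≤ C1 * (((2 * ρ + 5 : ℤ) : ℝ) / ((R' - 5 : ℤ) : ℝ)) ^ (1 + α1) +
      2 * ((2 * (R' / a0 : ℤ) + 3) * (C3 * (((3 * a0 : ℤ) : ℝ) / (m : ℤ)) ^ (1 + α3))) := by
  classical
  have hq : Pb (fun _ : ℤ × ℤ => 1 - σ) := Pb.const (by linarith) (by linarith)
  set I := Icc (-(R' / a0 + 1)) (R' / a0 + 1) with hI
  set I1 := I.filter (fun i => ρ + m < f * (i * a0)) with hI1
  set I2 := I.filter (fun i => ρ + m < -(e * (i * a0))) with hI2
  set A := AR e f g1 g2 w ρ R with hA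
  set W := Vw e f g1 g2 w ρ R with hW
  set E := A ∪ (AR e f g1 g2 w (2 * ρ) R' ∪
    (I1.biUnion (fun i => AS e g1 (w1 w (i * a0)) (3 * a0) m) ∪
      I2.biUnion (fun i => AD f g2 (w2 w (i * a0)) (3 * a0) m))) with hE
  set δ := C3 * (((3 * a0 : ℤ) : ℝ) / (m : ℤ)) ^ (1 + α3) with hδ
  have hs0 : 0 < (1 - σ) ^ (3 / 2 : ℝ) := Real.rpow_pos_of_pos (by linarith) _
  have hK3 : K ≤ (1 - σ) ^ (3 / 2 : ℝ) * ((3 * a0 : ℤ) : ℝ) := by
    refine ha0.trans (mul_le_mul_of_nonneg_left ?_ hs0.le)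
    push_cast
    have : (2 : ℝ) ≤ a0 := by exact_mod_cast ha
    linarith
  have hwb := hw1
  have hwb2 := hw2
  rw [abs_le] at hwb hwb2
  have e0 : ur σ e f g1 g2 w ρ R = bt σ E W A w ρ R := by
    unfold ur
    exact (bt_E subset_union_left).symm
  have hle : ∀ ω T : Finset (ℤ × ℤ), ind (UT A w ρ R ω T) ≤ ind (BE e f g1 g2 w (2 * ρ) R' ω) +
      (∑ i ∈ I1, ind (UT (AS e g1 (w1 w (i * a0)) (3 * a0) m) (w1 w (i * a0)) (3 * a0) m ω T) +
       ∑ i ∈ I2, ind (UT (AD f g2 (w2 w (i * a0)) (3 * a0) m) (w2 w (i * a0)) (3 * a0) m ω T)) := by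
    intro ω T
    have p1 : 0 ≤ ∑ i ∈ I1, ind (UT (AS e g1 (w1 w (i * a0)) (3 * a0) m) (w1 w (i * a0)) (3 * a0) m
        ω T) := sum_nonneg fun i _ => ind_nonneg _
    have p2 : 0 ≤ ∑ i ∈ I2, ind (UT (AD f g2 (w2 w (i * a0)) (3 * a0) m) (w2 w (i * a0)) (3 * a0) m
        ω T) := sum_nonneg fun i _ => ind_nonneg _
    have p3 : 0 ≤ ind (BE e f g1 g2 w (2 * ρ) R' ω) := ind_nonneg _
    by_cases h : UT A w ρ R ω T
    · rw [ind_true h]
      rcases rfx_split he hf hw1 hw2 ha hm hρ hR' hR h with h2 | ⟨i, hi, h2⟩ | ⟨i, hi, h2⟩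
      · rw [ind_true h2]
        linarith
      · have h3 := single_le_sum (f := fun i => ind (UT (AS e g1 (w1 w (i * a0)) (3 * a0) m)
          (w1 w (i * a0)) (3 * a0) m ω T)) (fun i _ => ind_nonneg _) hi
        rw [ind_true h2] at h3
        linarith
      · have h3 := single_le_sum (f := fun i => ind (UT (AD f g2 (w2 w (i * a0)) (3 * a0) m)
          (w2 w (i * a0)) (3 * a0) m ω T)) (fun i _ => ind_nonneg _) hi
        rw [ind_true h2] at h3
        linarith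
    · rw [ind_false h]
      linarith
  have hsum : bt σ E W A w ρ R ≤ PrP Corn.hf E (BE e f g1 g2 w (2 * ρ) R') +
      (∑ i ∈ I1, bt σ E W (AS e g1 (w1 w (i * a0)) (3 * a0) m) (w1 w (i * a0)) (3 * a0) m +
       ∑ i ∈ I2, bt σ E W (AD f g2 (w2 w (i * a0)) (3 * a0) m) (w2 w (i * a0)) (3 * a0) m) := by
    have h2 : bt σ E W A w ρ R ≤ Ex Corn.hf E (fun ω => Ex (fun _ => 1 - σ) W (fun T =>
        ind (BE e f g1 g2 w (2 * ρ) R' ω) +
      (∑ i ∈ I1, ind (UT (AS e g1 (w1 w (i * a0)) (3 * a0) m) (w1 w (i * a0)) (3 * a0) m ω T) +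
       ∑ i ∈ I2, ind (UT (AD f g2 (w2 w (i * a0)) (3 * a0) m) (w2 w (i * a0)) (3 * a0) m ω T)))) := by
      unfold bt
      exact Ex_mono hf_Pb fun ω _ => Ex_mono hq fun T _ => hle ω T
    refine h2.trans (le_of_eq ?_)
    simp only [Ex_add, Ex_sum, Ex_const]
    rfl
  rw [e0]
  refine hsum.trans (add_le_add ?_ ?_)
  · refine (BE_le (E := E) hN he hf hw1 hw2 (by omega) (by omega)
      (subset_union_left.trans subset_union_right)).trans (le_of_eq ?_)
    rfl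
  · have h00 : 0 ≤ R' / a0 := Int.ediv_nonneg (by omega) (by omega)
    have hc : ((I.card : ℕ) : ℝ) = 2 * (R' / a0 : ℤ) + 3 := by
      rw [hI, Int.card_Icc, ← Int.cast_natCast, Int.toNat_of_nonneg (by omega)]
      push_cast
      ring
    have hδ0 : 0 ≤ δ := by
      have h5 := (hX e he).1 (e * (w.1 + w.2)) w σ (3 * a0) (by rw [sub_self, abs_zero]; norm_num) h0
        h1 hK3 (3 * a0) m le_rfl hm.le
        (AS e (e * (w.1 + w.2)) w (3 * a0) m)
        ((Icc (w.1 - m) (w.1 + m)) ×ˢ (Icc (w.2 - m) (w.2 + m))) (Finset.Subset.refl _)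
        (fun y hy _ => by
          rw [mem_product, mem_Icc, mem_Icc]
          exact hy)
      exact (bt_nonneg h0 h1.le).trans h5
    have b1 : ∀ i ∈ I1, bt σ E W (AS e g1 (w1 w (i * a0)) (3 * a0) m) (w1 w (i * a0)) (3 * a0) m ≤
        δ := by
      intro i hi
      have hi2 := (mem_filter.1 hi).2
      have hi3 := mem_Icc.1 (mem_filter.1 hi).1
      obtain ⟨t, htt⟩ : ∃ t : ℤ, t = i * a0 := ⟨_, rfl⟩
      have ht1 : t ≤ R' + a0 ∧ -(R' + a0) ≤ t := by
        have h5 : R' / a0 * a0 ≤ R' := Int.ediv_mul_le _ (by omega)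
        constructor
        · rw [htt]
          nlinarith [mul_le_mul_of_nonneg_right hi3.2 (by omega : 0 ≤ a0)]
        · rw [htt]
          nlinarith [mul_le_mul_of_nonneg_right hi3.1 (by omega : 0 ≤ a0)]
      refine (hX e he).1 g1 (w1 w (i * a0)) σ (3 * a0) ?_ h0 h1 hK3 (3 * a0) m le_rfl hm.le E W ?_ ?_
      · have e1 : e * ((w1 w (i * a0)).1 + (w1 w (i * a0)).2) - g1 = e * (w.1 + w.2) - g1 := by
          unfold w1
          ring
        rw [e1]
        exact hw1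
      · exact (subset_biUnion_of_mem (fun i => AS e g1 (w1 w (i * a0)) (3 * a0) m) hi).trans
          (subset_union_left.trans (subset_union_right.trans subset_union_right))
      · intro y hy hy1
        rw [← htt] at hi2 hy
        rw [inR_iff] at hy
        unfold w1 at hy
        simp only at hy
        refine mem_Vw.2 ⟨?_, ?_, Or.inl ⟨hy1, ?_⟩⟩
        · rw [inR_iff]
          omega
        · rw [inR_iff]
          rcases hf with rfl | rfl <;> omega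
        · rcases hf with rfl | rfl <;> omega
    have b2 : ∀ i ∈ I2, bt σ E W (AD f g2 (w2 w (i * a0)) (3 * a0) m) (w2 w (i * a0)) (3 * a0) m ≤
        δ := by
      intro i hi
      have hi2 := (mem_filter.1 hi).2
      have hi3 := mem_Icc.1 (mem_filter.1 hi).1
      obtain ⟨t, htt⟩ : ∃ t : ℤ, t = i * a0 := ⟨_, rfl⟩
      have ht1 : t ≤ R' + a0 ∧ -(R' + a0) ≤ t := by
        have h5 : R' / a0 * a0 ≤ R' := Int.ediv_mul_le _ (by omega)
        constructor
        · rw [htt]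
          nlinarith [mul_le_mul_of_nonneg_right hi3.2 (by omega : 0 ≤ a0)]
        · rw [htt]
          nlinarith [mul_le_mul_of_nonneg_right hi3.1 (by omega : 0 ≤ a0)]
      refine (hX f hf).2 g2 (w2 w (i * a0)) σ (3 * a0) ?_ h0 h1 hK3 (3 * a0) m le_rfl hm.le E W ?_ ?_
      · have e1 : f * ((w2 w (i * a0)).2 - (w2 w (i * a0)).1) - g2 = f * (w.2 - w.1) - g2 := by
          unfold w2
          ring
        rw [e1]
        exact hw2
      · exact (subset_biUnion_of_mem (fun i => AD f g2 (w2 w (i * a0)) (3 * a0) m) hi).trans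
          (subset_union_right.trans (subset_union_right.trans subset_union_right))
      · intro y hy hy1
        rw [← htt] at hi2 hy
        rw [inR_iff] at hy
        unfold w2 at hy
        simp only at hy
        refine mem_Vw.2 ⟨?_, ?_, Or.inr ⟨hy1, ?_⟩⟩
        · rw [inR_iff]
          omega
        · rw [inR_iff]
          rcases he with rfl | rfl <;> omega
        · rcases he with rfl | rfl <;> omega
    have s1 : ∀ (J : Finset ℤ) (F : ℤ → ℝ), J ⊆ I → (∀ i ∈ J, F i ≤ δ) →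
        ∑ i ∈ J, F i ≤ (2 * (R' / a0 : ℤ) + 3) * δ := by
      intro J F hJ hF
      calc ∑ i ∈ J, F i ≤ ∑ i ∈ J, δ := sum_le_sum hF
        _ = J.card * δ := by rw [sum_const, nsmul_eq_mul]
        _ ≤ I.card * δ := mul_le_mul_of_nonneg_right (by exact_mod_cast card_le_card hJ) hδ0
        _ = _ := by rw [hc]
    have t1 := s1 I1 _ (filter_subset _ _) b1
    have t2 := s1 I2 _ (filter_subset _ _) b2
    linarith

end Pool.Agent.H23.TC
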