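import Mathlib
import Pool.Agent.H23.TC.RfxSplit

set_option autoImplicit false
open Finset

/-!
# Reflex corner with marked wall vertices

`bits_reflex` : domain `2 g1 ≤ e (l.1 + l.2)` or `2 g2 ≤ f (l.2 - l.1)` (angle `3π/2`), both walls marked
with probability `1 - σ`: the probability that a cluster crosses the annulus without marked vertex is at
most `C (ρ / R) ^ (1 + α)`. All orientations and parities.
-/

namespace Pool.Agent.H23.TC

open Pool.Agent.H75.Perc Pool.Agent.H75.TwoArm Pool.Agent.H75.Four Pool.Agent.H49.Perc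
open Pool.Agent.H99.NC Pool.Agent.H60.Q1 Pool.Agent.H60.Q1.Corn

/-- **crossing clusters without marked wall vertex at a reflex corner** -/
theorem bits_reflex : ∃ C α K : ℝ, 0 < C ∧ 0 < α ∧ 2 ≤ K ∧ ∀ (e f g1 g2 : ℤ) (w : ℤ × ℤ) (σ : ℝ)
    (a0 : ℤ), (e = 1 ∨ e = -1) → (f = 1 ∨ f = -1) → |e * (w.1 + w.2) - g1| ≤ 3 →
    |f * (w.2 - w.1) - g2| ≤ 3 → 0 ≤ σ → σ < 1 → K ≤ (1 - σ) ^ (3 / 2 : ℝ) * a0 →
    ∀ ρ R : ℤ, a0 ≤ ρ → ρ ≤ R → ∀ E V : Finset (ℤ × ℤ), AR e f g1 g2 w ρ R ⊆ E →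
    (∀ y, inR w R y → ¬ inR w ρ y → WV e f g1 g2 y → y ∈ V) →
    bt σ E V (AR e f g1 g2 w ρ R) w ρ R ≤ C * ((ρ : ℝ) / R) ^ (1 + α) := by
  obtain ⟨C3, α3, K, hC3, hα3, hK, hX⟩ := bits_flat
  obtain ⟨C1, α1, hC1, hα1, hN⟩ := corner_reflex
  obtain ⟨k, hk3, hk⟩ := exists_big (β := α1 / 2) (by positivity)
    (2 * 2 ^ (1 + α1 / 2) * (C1 * 15 ^ (1 + α1))) 10
  have hkR : (10 : ℝ) ≤ k := by exact_mod_cast hk3
  set θ : ℝ := (((2 * (k : ℤ) : ℤ) : ℝ)⁻¹) ^ (1 + α1 / 2) with hθ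
  have hθ0 : 0 < θ := by
    rw [hθ]
    refine Real.rpow_pos_of_pos ?_ _
    push_cast
    positivity
  obtain ⟨A, hA40, hA⟩ := exists_big (β := α3) hα3 (2 * (180 * k * C3 * 18 ^ α3) / θ) 100
  have hAR : (100 : ℝ) ≤ A := by exact_mod_cast hA40
  refine ⟨(((2 * (k : ℤ) : ℤ) : ℝ) * ((A : ℤ) : ℝ)) ^ (1 + α1 / 2), α1 / 2, K, ?_, by positivity, hK,
    fun e f g1 g2 w σ a0 he hf hw1 hw2 hσ0 hσ1 hKa ρ R hρ hR E V hE hV => ?_⟩
  · refine Real.rpow_pos_of_pos ?_ _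
    push_cast
    positivity
  refine (bt_le_ur hσ0 hσ1.le hE hV).trans ?_
  have hs : 0 < 1 - σ := by linarith
  have hs1 : (1 - σ) ^ (3 / 2 : ℝ) ≤ 1 := Real.rpow_le_one hs.le (by linarith) (by norm_num)
  have hs0 : 0 < (1 - σ) ^ (3 / 2 : ℝ) := Real.rpow_pos_of_pos hs _
  have ha2' : (2 : ℝ) ≤ a0 := by
    have h1 : 2 ≤ (1 - σ) ^ (3 / 2 : ℝ) * a0 := hK.trans hKa
    have h2 : 0 < (a0 : ℝ) := by
      by_contra h3
      push Not at h3
      nlinarith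
    nlinarith
  have ha2 : 2 ≤ a0 := by exact_mod_cast ha2'
  have hfirst : C1 * (15 / (k : ℝ)) ^ (1 + α1) ≤ θ / 2 := by
    have e1 : (15 / (k : ℝ)) ^ (1 + α1) =
        15 ^ (1 + α1) / ((k : ℝ) ^ (1 + α1 / 2) * (k : ℝ) ^ (α1 / 2)) := by
      rw [Real.div_rpow (by norm_num) (by positivity), ← Real.rpow_add (by positivity)]
      congr 2
      ring
    have e2 : θ = 1 / (2 ^ (1 + α1 / 2) * (k : ℝ) ^ (1 + α1 / 2)) := by
      rw [hθ, Real.inv_rpow (by push_cast; positivity), one_div]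
      congr 1
      push_cast
      rw [Real.mul_rpow (by norm_num) (by positivity)]
    rw [e1, e2]
    have h1 : (0 : ℝ) < (k : ℝ) ^ (1 + α1 / 2) := Real.rpow_pos_of_pos (by linarith) _
    have h2 : (0 : ℝ) < (k : ℝ) ^ (α1 / 2) := Real.rpow_pos_of_pos (by linarith) _
    have h3 : (0 : ℝ) < (2 : ℝ) ^ (1 + α1 / 2) := Real.rpow_pos_of_pos (by norm_num) _
    rw [← mul_div_assoc, div_div, div_le_div_iff₀ (by positivity) (by positivity)]
    nlinarith [mul_le_mul_of_nonneg_left hk h1.le]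
  refine iterate' (u := fun ρ R => ur σ e f g1 g2 w ρ R) (fun _ _ => ur_nonneg hσ0 hσ1.le)
    (fun _ _ => ur_le_one hσ0 hσ1.le) (fun _ _ _ _ h2 h3 => ur_mul hσ0 hσ1.le h2 h3) (K := 2 * k)
    (A := A) (by omega) (by omega) (by positivity) (by omega : 1 ≤ a0) ?_ hρ hR
  intro r hr
  have hr40 : 100 * a0 ≤ r := by
    have : 100 * a0 ≤ (A : ℤ) * a0 := mul_le_mul_of_nonneg_right (by exact_mod_cast hA40) (by omega)
    omega
  have hkr : 3 * r ≤ (k : ℤ) * r := mul_le_mul_of_nonneg_right (by exact_mod_cast (by omega)) (by omega)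
  have hb := rfx_block (σ := σ) (a0 := a0) (m := r / 5) (ρ := r) (R' := k * r)
    (R := 2 * (k : ℤ) * r) hσ0 hσ1 hN (by linarith : 0 ≤ K) hX hKa he hf hw1 hw2 ha2
    (by omega) (by omega) hkr (by rw [mul_assoc])
  refine hb.trans ?_
  have hrR : (100 : ℝ) * a0 ≤ r := by exact_mod_cast hr40
  have hr0 : (0 : ℝ) < r := by linarith
  -- the first term
  have t1 : C1 * (((2 * r + 5 : ℤ) : ℝ) / (((k : ℤ) * r - 5 : ℤ) : ℝ)) ^ (1 + α1) ≤ θ / 2 := by
    refine le_trans (mul_le_mul_of_nonneg_left (Real.rpow_le_rpow ?_ ?_ (by positivity)) hC1.le)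
      hfirst
    · have h2 : (0 : ℤ) ≤ (k : ℤ) * r - 5 := by omega
      have h3 : (0 : ℝ) ≤ (((k : ℤ) * r - 5 : ℤ) : ℝ) := by exact_mod_cast h2
      have h4 : (0 : ℤ) ≤ 2 * r + 5 := by omega
      have h5 : (0 : ℝ) ≤ ((2 * r + 5 : ℤ) : ℝ) := by exact_mod_cast h4
      positivity
    · push_cast
      have h2 : (10 : ℝ) * r ≤ k * r := mul_le_mul_of_nonneg_right hkR hr0.le
      have h3 : (k : ℝ) * 1 ≤ k * r := mul_le_mul_of_nonneg_left (by linarith) (by linarith)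
      have h4 : (k : ℝ) * 200 ≤ k * r := mul_le_mul_of_nonneg_left (by linarith) (by linarith)
      rw [div_le_div_iff₀ (by nlinarith) (by linarith)]
      nlinarith
  -- the second term
  have t2 : 2 * ((2 * (((k : ℤ) * r / a0 : ℤ) : ℝ) + 3) *
      (C3 * (((3 * a0 : ℤ) : ℝ) / ((r / 5 : ℤ) : ℝ)) ^ (1 + α3))) ≤ θ / 2 := by
    have h2 : (((k : ℤ) * r / a0 : ℤ) : ℝ) ≤ (k : ℝ) * r / a0 := by
      rw [le_div_iff₀ (by linarith)]
      have h3 : (k : ℤ) * r / a0 * a0 ≤ (k : ℤ) * r := Int.ediv_mul_le _ (by omega)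
      exact_mod_cast h3
    have h3 : (1 : ℝ) ≤ (k : ℝ) * r / a0 := by
      rw [le_div_iff₀ (by linarith)]
      nlinarith
    have h4 : (r : ℝ) / 6 ≤ ((r / 5 : ℤ) : ℝ) := by
      rw [div_le_iff₀ (by norm_num)]
      have h5 : r ≤ (r / 5) * 6 := by omega
      exact_mod_cast h5
    set y : ℝ := (a0 : ℝ) / r with hy
    have hy0 : 0 < y := by positivity
    have h5 : ((3 * a0 : ℤ) : ℝ) / ((r / 5 : ℤ) : ℝ) ≤ 18 * y := by
      push_cast
      rw [hy, ← mul_div_assoc, div_le_div_iff₀ (by linarith) hr0]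
      nlinarith
    have h6 : (((3 * a0 : ℤ) : ℝ) / ((r / 5 : ℤ) : ℝ)) ^ (1 + α3) ≤ (18 * y) * (18 * y) ^ α3 := by
      have h7 : (18 * y) * (18 * y) ^ α3 = (18 * y) ^ (1 + α3) := by
        rw [Real.rpow_add (by positivity), Real.rpow_one]
      rw [h7]
      refine Real.rpow_le_rpow ?_ h5 (by positivity)
      have : (0 : ℝ) ≤ ((r / 5 : ℤ) : ℝ) := by linarith
      push_cast
      positivity
    have h7 : y ≤ 1 / A := by
      rw [hy, div_le_div_iff₀ hr0 (by linarith)]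
      have h8 : (A : ℤ) * a0 ≤ r := hr
      have h9 : (A : ℝ) * a0 ≤ r := by exact_mod_cast h8
      linarith
    have h8 : (18 * y) ^ α3 ≤ 18 ^ α3 / (A : ℝ) ^ α3 := by
      rw [← Real.div_rpow (by norm_num) (by linarith)]
      refine Real.rpow_le_rpow (by positivity) ?_ hα3.le
      calc 18 * y ≤ 18 * (1 / A) := by linarith
        _ = 18 / A := by ring
    have hAα : (0 : ℝ) < (A : ℝ) ^ α3 := Real.rpow_pos_of_pos (by linarith) _
    have h9 : 2 * (((k : ℤ) * r / a0 : ℤ) : ℝ) + 3 ≤ 5 * ((k : ℝ) * r / a0) := by linarith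
    have h10 : (0 : ℝ) ≤ 2 * (((k : ℤ) * r / a0 : ℤ) : ℝ) + 3 := by
      have : (0 : ℤ) ≤ (k : ℤ) * r / a0 := Int.ediv_nonneg (by nlinarith) (by omega)
      have h11 : (0 : ℝ) ≤ (((k : ℤ) * r / a0 : ℤ) : ℝ) := by exact_mod_cast this
      linarith
    calc 2 * ((2 * (((k : ℤ) * r / a0 : ℤ) : ℝ) + 3) *
        (C3 * (((3 * a0 : ℤ) : ℝ) / ((r / 5 : ℤ) : ℝ)) ^ (1 + α3)))
        ≤ 2 * ((5 * ((k : ℝ) * r / a0)) * (C3 * ((18 * y) * (18 ^ α3 / (A : ℝ) ^ α3)))) := by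
          refine mul_le_mul_of_nonneg_left ?_ (by norm_num)
          refine mul_le_mul h9 (mul_le_mul_of_nonneg_left (h6.trans
            (mul_le_mul_of_nonneg_left h8 (by positivity))) hC3.le) ?_ (by positivity)
          refine mul_nonneg hC3.le (Real.rpow_nonneg ?_ _)
          have : (0 : ℝ) ≤ ((r / 5 : ℤ) : ℝ) := by linarith
          push_cast
          positivity
      _ = 180 * k * C3 * 18 ^ α3 / (A : ℝ) ^ α3 := by
          rw [hy]
          field_simp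
          ring
      _ ≤ θ / 2 := by
          rw [div_le_iff₀ hAα]
          rw [div_le_iff₀ hθ0] at hA
          linarith
  calc _ ≤ θ / 2 + θ / 2 := add_le_add t1 t2
    _ = θ := by ring

end Pool.Agent.H23.TC
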